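import Pool.Agent.X26.DP.Pri

/-!
# All patterns in a common dilate: the singular series
-/

set_option autoImplicit false

namespace Pool.Agent.X26.DP

open Finset
open Pool.Agent.Y843.HS
open Pool.Agent.Y843.AC.HL (Sing_hasProd Sing_cmp Sing_low loc_good loc_bad loc_pos card_image_eq_of)

/-- the number of residue classes modulo `p` occupied by `T` -/
def nuN (T : Finset ℕ) (p : ℕ) : ℕ := (T.image (fun t => t % p)).card

/-- the local factor of the singular series -/
noncomputable def locN (T : Finset ℕ) (p : ℕ) : ℝ := (1 - (nuN T p : ℝ) / p) / (1 - 1 / (p : ℝ)) ^ T.card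

/-- the singular series -/
noncomputable def SN (T : Finset ℕ) : ℝ := ∏' p : Nat.Primes, locN T p

/-- the pattern `d F` -/
def dl (d : ℕ) (F : Finset ℕ) : Finset ℕ := F.image (fun f => d * f)

/-- the set of integers -/
def ci (T : Finset ℕ) : Finset ℤ := T.image (fun t : ℕ => (t : ℤ))

theorem ci_card (T : Finset ℕ) : (ci T).card = T.card := card_image_of_injective _ Nat.cast_injective

theorem ci_nu (T : Finset ℕ) (p : ℕ) : Pool.Agent.Y843.AC.HL.nu (ci T) p = nuN T p := by
  unfold Pool.Agent.Y843.AC.HL.nu nuN ci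
  rw [image_image]
  apply card_image_eq_of
  intro s _ t _
  simp only [Function.comp]
  constructor
  · intro h
    rw [← Int.natCast_mod, ← Int.natCast_mod, h]
  · intro h
    rw [← Int.natCast_mod, ← Int.natCast_mod] at h
    exact_mod_cast h

theorem ci_loc (T : Finset ℕ) (p : ℕ) : Pool.Agent.Y843.AC.HL.loc (ci T) p = locN T p := by
  unfold Pool.Agent.Y843.AC.HL.loc locN
  rw [ci_nu, ci_card]

theorem ci_Sing (T : Finset ℕ) : Pool.Agent.Y843.AC.HL.Sing (ci T) = SN T := by
  unfold Pool.Agent.Y843.AC.HL.Sing SN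
  simp only [ci_loc]

theorem SN_hasProd (T : Finset ℕ) : HasProd (fun p : Nat.Primes => locN T p) (SN T) := by
  have h := Sing_hasProd (ci T)
  rw [ci_Sing] at h
  simpa only [ci_loc] using h

theorem ci_adm {T : Finset ℕ} (h : ∀ p : ℕ, p.Prime → nuN T p < p) : Pool.Agent.Y843.AC.HL.Adm (ci T) := by
  intro q hq
  rw [ci_nu]
  exact h q hq

theorem SN_pos {T : Finset ℕ} (h : ∀ p : ℕ, p.Prime → nuN T p < p) : 0 < SN T := by
  obtain ⟨c, hc, h1⟩ := Sing_low (ci T).card
  rw [← ci_Sing]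
  exact lt_of_lt_of_le hc (h1 (ci T) rfl (ci_adm h))

theorem dl_card {d : ℕ} (hd : 1 ≤ d) (F : Finset ℕ) : (dl d F).card = F.card :=
  card_image_of_injective _ fun _ _ h => Nat.eq_of_mul_eq_mul_left hd h

theorem dl_nu_good {k d p : ℕ} (F : Finset ℕ) (hF : F ⊆ range k) (hp : p.Prime) (hkp : k ≤ p)
    (hpd : ¬ p ∣ d) : nuN (dl d F) p = F.card := by
  unfold nuN dl
  rw [image_image]
  apply card_image_of_injOn
  intro s hs t ht h
  simp only [Function.comp] at h
  have h1 : d * s ≡ d * t [MOD p] := h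
  have h2 : s ≡ t [MOD p] := Nat.ModEq.cancel_left_of_coprime
    ((Nat.Prime.coprime_iff_not_dvd hp).2 hpd) h1
  have h3 := mem_range.1 (hF hs)
  have h4 := mem_range.1 (hF ht)
  have h5 : s % p = t % p := h2
  rwa [Nat.mod_eq_of_lt (by omega), Nat.mod_eq_of_lt (by omega)] at h5

theorem loc_any {T : Finset ℕ} {p : ℕ} (hp : p.Prime) : locN T p ≤ (1 + 2 / (p : ℝ)) ^ T.card := by
  have h0 : (2 : ℝ) ≤ p := by exact_mod_cast hp.two_le
  have h1 : 0 < 1 - 1 / (p : ℝ) := Pool.Agent.Y843.AC.HL.one_sub_pos hp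
  unfold locN
  rw [div_le_iff₀ (by positivity), ← mul_pow]
  have h2 : (1 : ℝ) ≤ (1 + 2 / (p : ℝ)) * (1 - 1 / (p : ℝ)) := by
    have h3 : (1 + 2 / (p : ℝ)) * (1 - 1 / (p : ℝ)) = 1 + (1 / p) * (1 - 2 / p) := by
      field_simp
      ring
    rw [h3]
    have h4 : 2 / (p : ℝ) ≤ 1 := by rw [div_le_one (by linarith)]; exact h0
    have h5 : 0 ≤ (1 / (p : ℝ)) * (1 - 2 / p) := by
      apply mul_nonneg (by positivity)
      linarith
    linarith
  have h3 : (0 : ℝ) ≤ (nuN T p : ℝ) / p := by positivity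
  have h4 := one_le_pow₀ (n := T.card) h2
  linarith

open Classical in
theorem Gd_Z0 (K s R d : ℕ) : Gd K Z0 s R (d : ℤ) = ∏ p ∈ (Pr s R).filter (fun p => p ∣ d), (1 + (K : ℝ) / p) := by
  unfold Gd
  apply prod_congr _ (fun _ _ => rfl)
  ext p
  rw [mem_filter, mem_filter]
  constructor
  · rintro ⟨h1, c, hc, c', hc', h2⟩
    unfold Z0 at hc hc'
    rw [mem_singleton] at hc hc'
    subst hc
    subst hc'
    refine ⟨h1, ?_⟩
    have h3 : (p : ℤ) ∣ (d : ℤ) := by simpa using h2
    exact_mod_cast h3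
  · rintro ⟨h1, h2⟩
    refine ⟨h1, 0, by unfold Z0; simp, 0, by unfold Z0; simp, ?_⟩
    have h3 : (p : ℤ) ∣ (d : ℤ) := by exact_mod_cast h2
    simpa using h3

/-- the singular series of a dilate -/
theorem SN_dl {k s R : ℕ} (hk : 2 ≤ k) (hks : k ≤ s) {d : ℕ} (hd : 1 ≤ d) (hdR : d ≤ R) {F : Finset ℕ}
    (hF : F ⊆ range k) (hadm : ∀ p : ℕ, p.Prime → nuN (dl d F) p < p) :
    SN (dl d F) ≤ (2 : ℝ) ^ (k * k ^ 2) * (2 ^ k) ^ s * Gd (k * 2 * (1 + 2) ^ k) Z0 s R (d : ℤ) := by
  classical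
  have hFk : F.card ≤ k := by
    have := card_le_card hF
    rwa [card_range] at this
  have hcard : (ci (dl d F)).card = F.card := by rw [ci_card, dl_card hd]
  have h1 := (Sing_cmp (ci_adm hadm) (x := k * d)).2 (by nlinarith) (by
    intro t ht
    unfold ci dl at ht
    rw [mem_image] at ht
    obtain ⟨u, hu, rfl⟩ := ht
    rw [mem_image] at hu
    obtain ⟨f, hf, rfl⟩ := hu
    have h2 := mem_range.1 (hF hf)
    rw [abs_of_nonneg (by positivity)]
    have h3 : d * f ≤ k * d := by nlinarith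
    exact_mod_cast h3)
  rw [ci_Sing, hcard] at h1
  simp only [ci_loc] at h1
  refine h1.trans ?_
  rw [mul_assoc]
  have hpos : ∀ p ∈ Pr 0 (k * d), 0 < locN (dl d F) p := by
    intro p hp
    rw [← ci_loc]
    exact loc_pos (ci_adm hadm) (Pr_prime hp)
  apply mul_le_mul
  · apply pow_le_pow_right₀ (by norm_num)
    exact Nat.mul_le_mul hFk (Nat.pow_le_pow_left hFk 2)
  · rw [← prod_filter_mul_prod_filter_not (Pr 0 (k * d)) (fun p => p ≤ s)]
    apply mul_le_mul
    · calc ∏ p ∈ (Pr 0 (k * d)).filter (fun p => p ≤ s), locN (dl d F) p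
          ≤ ∏ _p ∈ (Pr 0 (k * d)).filter (fun p => p ≤ s), (2 : ℝ) ^ k := by
            apply prod_le_prod
            · intro p hp
              exact (hpos p (mem_filter.1 hp).1).le
            · intro p hp
              have h2 := loc_bad (T := ci (dl d F)) (Pr_prime (mem_filter.1 hp).1)
              rw [ci_loc, hcard] at h2
              exact h2.trans (pow_le_pow_right₀ (by norm_num) hFk)
        _ = ((2 : ℝ) ^ k) ^ ((Pr 0 (k * d)).filter (fun p => p ≤ s)).card := by rw [prod_const]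
        _ ≤ ((2 : ℝ) ^ k) ^ s := by
            apply pow_le_pow_right₀ (one_le_pow₀ (by norm_num))
            have h2 : (Pr 0 (k * d)).filter (fun p => p ≤ s) ⊆ Icc 1 s := by
              intro p hp
              rw [mem_filter, Pr_mem] at hp
              rw [mem_Icc]
              omega
            have h3 := card_le_card h2
            rwa [Nat.card_Icc, Nat.add_sub_cancel] at h3
    · rw [Gd_Z0, ← prod_filter_mul_prod_filter_not ((Pr 0 (k * d)).filter (fun p => ¬ p ≤ s)) (fun p => p ∣ d)]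
      have h2 : ∏ p ∈ ((Pr 0 (k * d)).filter (fun p => ¬ p ≤ s)).filter (fun p => ¬ p ∣ d), locN (dl d F) p ≤ 1 := by
        apply prod_le_one
        · intro p hp
          exact (hpos p (mem_filter.1 (mem_filter.1 hp).1).1).le
        · intro p hp
          rw [mem_filter, mem_filter] at hp
          have h3 := loc_good (T := ci (dl d F)) (Pr_prime hp.1.1) (by
            rw [ci_nu, hcard]
            exact dl_nu_good F hF (Pr_prime hp.1.1) (by omega) hp.2)
          rw [ci_loc] at h3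
          exact h3
      have h3 : ∏ p ∈ ((Pr 0 (k * d)).filter (fun p => ¬ p ≤ s)).filter (fun p => p ∣ d), locN (dl d F) p ≤
          ∏ p ∈ (Pr s R).filter (fun p => p ∣ d), (1 + ((k * 2 * (1 + 2) ^ k : ℕ) : ℝ) / p) := by
        calc ∏ p ∈ ((Pr 0 (k * d)).filter (fun p => ¬ p ≤ s)).filter (fun p => p ∣ d), locN (dl d F) p
            ≤ ∏ p ∈ ((Pr 0 (k * d)).filter (fun p => ¬ p ≤ s)).filter (fun p => p ∣ d),
              (1 + ((k * 2 * (1 + 2) ^ k : ℕ) : ℝ) / p) := by
              apply prod_le_prod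
              · intro p hp
                exact (hpos p (mem_filter.1 (mem_filter.1 hp).1).1).le
              · intro p hp
                have hpp := Pr_prime (mem_filter.1 (mem_filter.1 hp).1).1
                refine (loc_any hpp).trans ?_
                rw [dl_card hd]
                have h4 : (1 + 2 / (p : ℝ)) ^ F.card ≤ (1 + 2 / (p : ℝ)) ^ k := by
                  apply pow_le_pow_right₀ _ hFk
                  have : (0 : ℝ) ≤ 2 / (p : ℝ) := by positivity
                  linarith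
                refine h4.trans ?_
                have h5 := pow_fac_le 2 k p hpp.one_lt.le
                push_cast at h5 ⊢
                exact h5
          _ ≤ _ := by
              apply prod_fac_mono
              intro p hp
              rw [mem_filter, mem_filter, Pr_mem] at hp
              rw [mem_filter, Pr_mem]
              have := Nat.le_of_dvd hd hp.2
              exact ⟨⟨by omega, hp.1.1.2⟩, hp.2⟩
      calc _ ≤ (∏ p ∈ (Pr s R).filter (fun p => p ∣ d), (1 + ((k * 2 * (1 + 2) ^ k : ℕ) : ℝ) / p)) * 1 := by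
            apply mul_le_mul h3 h2
            · apply prod_nonneg
              intro p hp
              exact (hpos p (mem_filter.1 (mem_filter.1 hp).1).1).le
            · exact zero_le_one.trans (one_le_prod_fac _ _)
        _ = _ := mul_one _
    · apply prod_nonneg
      intro p hp
      exact (hpos p (mem_filter.1 hp).1).le
    · positivity
  · apply prod_nonneg
    intro p hp
    exact (hpos p hp).le
  · positivity

/-- few dilates have a large singular series -/
theorem few_big (k : ℕ) (hk : 2 ≤ k) {ε : ℝ} (hε : 0 < ε) : ∃ C : ℝ, 0 < C ∧ ∃ B X₀ : ℕ, ∀ X D : ℕ, X₀ ≤ X →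
    Real.log X ^ B ≤ D → D ≤ X → ∃ E : Finset ℕ, (E.card : ℝ) ≤ ε * D ∧ ∀ d ∈ Icc 1 D, d ∉ E →
      ∀ F ⊆ range k, (∀ p : ℕ, p.Prime → nuN (dl d F) p < p) → SN (dl d F) ≤ C := by
  classical
  obtain ⟨s₀, B₀, X₁, h⟩ := Pool.Agent.Y79.HS.gav 1 (k * 2 * (1 + 2) ^ k) (ε / 2) (by positivity)
  obtain ⟨X₂, hX₂⟩ := log_ge 1
  refine ⟨(2 : ℝ) ^ (k * k ^ 2) * (2 ^ k) ^ (max s₀ k) * 2, by positivity, B₀, max X₁ X₂, ?_⟩
  intro X D hX hBD hDX
  have hX1 : X₁ ≤ X := (le_max_left _ _).trans hX
  have hX2 : 1 ≤ Real.log X := hX₂ X ((le_max_right _ _).trans hX)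
  set s := max s₀ k with hs
  have hBD' : Real.log X ^ B₀ ≤ ((D + 1 : ℕ) : ℝ) := by
    push_cast
    linarith
  have h1 := h s X X (D + 1) (le_max_left _ _) hX1 le_rfl hBD' Z0 (by
    intro p hp
    unfold Z0
    rw [card_singleton]
    refine ⟨le_rfl, fun c hc => ?_⟩
    rw [mem_singleton.1 hc]
    exact (Pr_prime hp).pos)
  have hD1 : (1 : ℝ) ≤ D := (one_le_pow₀ hX2).trans hBD
  rw [div_le_iff₀ (by positivity)] at h1
  refine ⟨(Icc 1 D).filter (fun d : ℕ => 2 < Gd (k * 2 * (1 + 2) ^ k) Z0 s X (d : ℤ)), ?_, ?_⟩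
  · have h2 : (((Icc 1 D).filter (fun d : ℕ => 2 < Gd (k * 2 * (1 + 2) ^ k) Z0 s X (d : ℤ))).card : ℝ) ≤
        ∑ h ∈ Ioo (-((D + 1 : ℕ) : ℤ)) ((D + 1 : ℕ) : ℤ), (Gd (k * 2 * (1 + 2) ^ k) Z0 s X h - 1) := by
      have h3 : (((Icc 1 D).filter (fun d : ℕ => 2 < Gd (k * 2 * (1 + 2) ^ k) Z0 s X (d : ℤ))).card : ℝ) ≤
          ∑ d ∈ (Icc 1 D).filter (fun d : ℕ => 2 < Gd (k * 2 * (1 + 2) ^ k) Z0 s X (d : ℤ)),
            (Gd (k * 2 * (1 + 2) ^ k) Z0 s X (d : ℤ) - 1) := by
        rw [card_eq_sum_ones, Nat.cast_sum]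
        apply sum_le_sum
        intro d hd
        rw [mem_filter] at hd
        push_cast
        linarith [hd.2]
      refine h3.trans ?_
      rw [← sum_image (f := fun h : ℤ => Gd (k * 2 * (1 + 2) ^ k) Z0 s X h - 1)
        (g := fun d : ℕ => (d : ℤ)) (fun _ _ _ _ h => Nat.cast_injective h)]
      apply sum_le_sum_of_subset_of_nonneg
      · intro h hh
        rw [mem_image] at hh
        obtain ⟨d, hd, rfl⟩ := hh
        rw [mem_filter, mem_Icc] at hd
        rw [mem_Ioo]
        constructor <;> omega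
      · intro h _ _
        have := one_le_Gd (Z := Z0) (s := s) (R := X) (k * 2 * (1 + 2) ^ k) h
        linarith
    refine h2.trans (h1.trans ?_)
    push_cast
    nlinarith
  · intro d hd hdE F hF hadm
    rw [mem_filter, not_and, not_lt] at hdE
    have h2 := hdE hd
    rw [mem_Icc] at hd
    have h3 := SN_dl hk (le_max_right s₀ k) hd.1 (hd.2.trans hDX) hF hadm
    refine h3.trans ?_
    exact mul_le_mul_of_nonneg_left h2 (by positivity)

theorem adm_of {k d n : ℕ} {F : Finset ℕ} (hF : F ⊆ range k)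
    (h : ∀ f ∈ F, (n + f * d).Prime ∧ k < n + f * d) : ∀ p : ℕ, p.Prime → nuN (dl d F) p < p := by
  intro p hp
  have hFk : F.card ≤ k := by
    have := card_le_card hF
    rwa [card_range] at this
  rcases lt_or_ge k p with h1 | h1
  · have h2 : nuN (dl d F) p ≤ F.card := card_image_le.trans card_image_le
    omega
  · have h2 : (dl d F).image (fun t => t % p) ⊆ (range p).erase ((p - n % p) % p) := by
      intro u hu
      rw [mem_image] at hu
      obtain ⟨t, ht, rfl⟩ := hu
      unfold dl at ht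
      rw [mem_image] at ht
      obtain ⟨f, hf, rfl⟩ := ht
      rw [mem_erase, mem_range]
      refine ⟨?_, Nat.mod_lt _ hp.pos⟩
      intro hcon
      obtain ⟨h3, h4⟩ := h f hf
      have h5 : p ∣ n + f * d := by
        have h6 : (n + d * f) % p = 0 := by
          rw [Nat.add_mod, hcon]
          have h7 := Nat.mod_lt n hp.pos
          rcases Nat.eq_zero_or_pos (n % p) with h8 | h8
          · rw [h8]
            simp
          · rw [Nat.mod_eq_of_lt (show p - n % p < p by omega)]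
            rw [show n % p + (p - n % p) = p by omega, Nat.mod_self]
        rw [mul_comm]
        exact Nat.dvd_of_mod_eq_zero h6
      have h6 := (Nat.prime_dvd_prime_iff_eq hp h3).1 h5
      omega
    have h3 := card_le_card h2
    rw [card_erase_of_mem (mem_range.2 (Nat.mod_lt _ hp.pos)), card_range] at h3
    unfold nuN
    have := hp.pos
    omega

/-- **all patterns in a common dilate** -/
theorem main (k : ℕ) {δ : ℝ} (hδ : 0 < δ) : ∃ c : ℝ, 0 < c ∧ ∃ B X₀ : ℕ, ∀ X y D : ℕ, X₀ ≤ X →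
    Real.log X ^ B ≤ D → D ≤ X → ∀ A : Finset ℕ, A ⊆ Ioc y (y + X) → (∀ p ∈ A, p.Prime) →
    δ * (X / Real.log X) ≤ A.card →
    ∃ G ⊆ Icc 1 D, c * D ≤ (G.card : ℝ) ∧ ∀ d ∈ G, ∀ F ⊆ range k, 0 ∈ F →
      (∀ p : ℕ, p.Prime → nuN (dl d F) p < p) ∧ 0 < SN (dl d F) ∧
      c * SN (dl d F) * (X / Real.log X ^ F.card) ≤ ((A.filter (fun n => ∀ f ∈ F, n + d * f ∈ A)).card : ℝ) := by
  classical
  obtain ⟨k', hk'⟩ : ∃ k', k' = max k 2 := ⟨_, rfl⟩
  have hk2 : 2 ≤ k' := by omega
  have hkk : k ≤ k' := by omega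
  obtain ⟨c, hc, B, X₁, h1⟩ := pri k' hk2 hδ
  obtain ⟨C, hC, B', X₂, h2⟩ := few_big k' hk2 (show (0 : ℝ) < c / 2 by positivity)
  obtain ⟨X₃, hX₃⟩ := log_ge 1
  refine ⟨min (c / 2) (c / C), lt_min (by positivity) (by positivity), max B B', max X₁ (max X₂ X₃), ?_⟩
  intro X y D hX hBD hDX A hA hAp hAc
  have hX1 : X₁ ≤ X := (le_max_left _ _).trans hX
  have hX2 : X₂ ≤ X := (le_max_left _ _).trans ((le_max_right _ _).trans hX)
  have hX3 : 1 ≤ Real.log X := hX₃ X ((le_max_right _ _).trans ((le_max_right _ _).trans hX))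
  have hB1 : Real.log X ^ B ≤ D := (pow_le_pow_right₀ hX3 (le_max_left _ _)).trans hBD
  have hB2 : Real.log X ^ B' ≤ D := (pow_le_pow_right₀ hX3 (le_max_right _ _)).trans hBD
  have hX0 : (0 : ℝ) < X := by
    have : 0 < X := Nat.pos_of_ne_zero fun h => by
      rw [h] at hX3
      simp at hX3
      linarith
    exact_mod_cast this
  have h3 := h1 X y D hX1 hB1 hDX A hA hAp hAc
  obtain ⟨E, hE, h4⟩ := h2 X D hX2 hB2 hDX
  set P := (Icc 1 D).filter (fun d => ∀ F : Finset (Fin k'), (∃ j ∈ F, (j : ℕ) = 0) →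
      c * (X / Real.log X ^ F.card) ≤ (ct (A.filter (fun p => k' < p)) F d : ℝ)) with hP
  refine ⟨P \ E, sdiff_subset.trans (filter_subset _ _), ?_, ?_⟩
  · have h5 : (P.card : ℝ) ≤ (P \ E).card + E.card := by
      have h6 := card_le_card_sdiff_add_card (s := P) (t := E)
      exact_mod_cast h6
    have h6 : min (c / 2) (c / C) * D ≤ c / 2 * D := mul_le_mul_of_nonneg_right (min_le_left _ _) (Nat.cast_nonneg _)
    linarith
  · intro d hd F hF h0
    rw [mem_sdiff, hP, mem_filter] at hd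
    obtain ⟨⟨hd1, hd2⟩, hdE⟩ := hd
    have hF' : F ⊆ range k' := hF.trans (range_subset_range.2 hkk)
    -- the pattern as a set of indices
    set F1 : Finset (Fin k') := univ.filter (fun j => (j : ℕ) ∈ F) with hF1
    have hcard : F1.card = F.card := by
      have h5 : F1.image (fun j : Fin k' => (j : ℕ)) = F := by
        ext f
        rw [mem_image]
        constructor
        · rintro ⟨j, hj, rfl⟩
          exact (mem_filter.1 hj).2
        · intro hf
          exact ⟨⟨f, mem_range.1 (hF' hf)⟩, mem_filter.2 ⟨mem_univ _, hf⟩, rfl⟩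
      rw [← h5, card_image_of_injective _ Fin.val_injective]
    have h5 := hd2 F1 ⟨⟨0, by omega⟩, mem_filter.2 ⟨mem_univ _, h0⟩, rfl⟩
    rw [hcard] at h5
    have h6 : 0 < (ct (A.filter (fun p => k' < p)) F1 d : ℝ) := lt_of_lt_of_le (by positivity) h5
    have h7 : 0 < ct (A.filter (fun p => k' < p)) F1 d := by exact_mod_cast h6
    unfold ct at h7
    obtain ⟨n, hn⟩ := card_pos.1 h7
    rw [mem_filter, mem_filter] at hn
    have hadm : ∀ p : ℕ, p.Prime → nuN (dl d F) p < p := by
      apply adm_of hF' (n := n)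
      intro f hf
      have h8 := hn.2 ⟨f, mem_range.1 (hF' hf)⟩ (mem_filter.2 ⟨mem_univ _, hf⟩)
      rw [mem_filter] at h8
      exact ⟨hAp _ h8.1, h8.2⟩
    have hS0 := SN_pos hadm
    refine ⟨hadm, hS0, ?_⟩
    have hS1 := h4 d hd1 hdE F hF' hadm
    have h8 : (ct (A.filter (fun p => k' < p)) F1 d : ℝ) ≤
        ((A.filter (fun n => ∀ f ∈ F, n + d * f ∈ A)).card : ℝ) := by
      unfold ct
      apply Nat.cast_le.2
      apply card_le_card
      intro m hm
      rw [mem_filter, mem_filter] at hm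
      rw [mem_filter]
      refine ⟨hm.1.1, fun f hf => ?_⟩
      have h9 := hm.2 ⟨f, mem_range.1 (hF' hf)⟩ (mem_filter.2 ⟨mem_univ _, hf⟩)
      rw [mem_filter] at h9
      rw [mul_comm]
      exact h9.1
    refine le_trans ?_ (h5.trans h8)
    apply mul_le_mul_of_nonneg_right _ (by positivity)
    calc min (c / 2) (c / C) * SN (dl d F) ≤ c / C * C :=
          mul_le_mul (min_le_right _ _) hS1 hS0.le (by positivity)
      _ = c := by field_simp

end Pool.Agent.X26.DP
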