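import Pool.Agent.X26.DP.Rs
import Pool.Agent.Y843.HS.Win
import Pool.Agent.Y872.AC.Win

/-!
# All patterns in a common dilate: windows
-/

set_option autoImplicit false

open Finset

namespace Pool.Agent.X26.DP

open Pool.Agent.H602R3.DHJ
open Pool.Agent.Y727.PSP
open Pool.Agent.Y843.HS
open Pool.Agent.Y79.PSP.MK (rp_mem rp_inj)
open Pool.Agent.Y872.AC (chain)

variable {k N : ℕ}

/-- the number of the `n` in `T` with all `n + j d`, `j ∈ F`, in `T` -/
def ct (T : Finset ℕ) (F : Finset (Fin k)) (d : ℕ) : ℕ := (T.filter (fun n => ∀ j ∈ F, n + j * d ∈ T)).card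

/-- reflection of the patterns -/
theorem TF_neg [NeZero N] (f : ZMod N → ℝ) (F : Finset (Fin k)) (d : ZMod N) :
    TF k N f F (-d) = TF k N f (F.image Fin.rev) d := by
  unfold TF
  rw [← av_equiv (Equiv.addRight (((k - 1 : ℕ) : ZMod N) * d))
    (fun a : ZMod N => ∏ j ∈ F, f (a + ((j : ℕ) : ZMod N) * -d))]
  congr 1
  funext a
  rw [prod_image (fun i _ j _ h => Fin.rev_injective h)]
  apply prod_congr rfl
  intro j _
  congr 1
  rw [Equiv.coe_addRight, Fin.val_rev]
  have h : (((k - (j + 1) : ℕ)) : ZMod N) = ((k - 1 : ℕ) : ZMod N) - ((j : ℕ) : ZMod N) := by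
    rw [← Nat.cast_sub (by have := j.2; omega)]
    congr 1
    omega
  rw [h]
  ring

open Classical in
/-- the differences which are good for all patterns -/
noncomputable def GG (k N : ℕ) [NeZero N] (c : ℝ) (f : ZMod N → ℝ) : Finset (ZMod N) :=
  univ.filter (fun d => ∀ F : Finset (Fin k), c ≤ TF k N f F d)

theorem GG_neg [NeZero N] {c : ℝ} {f : ZMod N → ℝ} {d : ZMod N} (h : d ∈ GG k N c f) : -d ∈ GG k N c f := by
  unfold GG at h ⊢
  rw [mem_filter] at h ⊢
  refine ⟨mem_univ _, fun F => ?_⟩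
  rw [TF_neg]
  exact h.2 _

/-- a nonzero product -/
theorem ex_pt [NeZero N] {f : ZMod N → ℝ} {c : ℝ} (hc : 0 < c) {F : Finset (Fin k)} {d : ZMod N}
    (h : c ≤ TF k N f F d) : ∃ a, ∀ j ∈ F, f (a + ((j : ℕ) : ZMod N) * d) ≠ 0 := by
  by_contra hcon
  push Not at hcon
  have h1 : TF k N f F d = 0 := by
    unfold TF
    have h2 : (fun a : ZMod N => ∏ j ∈ F, f (a + ((j : ℕ) : ZMod N) * d)) = fun _ => 0 := by
      funext a
      obtain ⟨j, hj, h0⟩ := hcon a
      exact prod_eq_zero hj h0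
    rw [h2, av_const]
  linarith

theorem fX_ne {T : Finset ℕ} {w : ℝ} {x : ℕ} {a : ZMod N} (h : fX T w N x a ≠ 0) :
    x + rp a ∈ T ∧ 2 * rp a < N := by
  unfold fX at h
  by_contra hcon
  rw [if_neg hcon] at h
  exact h rfl

theorem rp_cast_natAbs [NeZero N] {d : ZMod N} {D : ℤ} (hD : 0 < D) (hDN : D < N) (h : (D : ZMod N) = d) :
    (rp d : ℤ) = D := by
  obtain ⟨D', rfl⟩ := Int.eq_ofNat_of_zero_le hD.le
  rw [← h]
  have h1 : 1 ≤ D' := by exact_mod_cast hD
  have h2 : D' < N := by exact_mod_cast hDN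
  have := rp_nat (N := N) h1 h2
  rw [Int.cast_natCast, this]

/-- the good differences are small integers up to the sign -/
theorem small_or [NeZero N] (hk : 2 ≤ k) {T : Finset ℕ} {w c : ℝ} (hc : 0 < c) {x : ℕ} {d : ZMod N}
    (hd : d ≠ 0) (h : d ∈ GG k N c (fX T w N x)) :
    2 * (k - 1) * rp d < N ∨ 2 * (k - 1) * rp (-d) < N := by
  unfold GG at h
  rw [mem_filter] at h
  obtain ⟨a, ha⟩ := ex_pt hc (h.2 univ)
  have h1 : ∀ j < k, 2 * rp (a + (j : ZMod N) * d) < N := by
    intro j hj
    exact (fX_ne (ha ⟨j, hj⟩ (mem_univ _))).2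
  obtain ⟨h2, h3⟩ := chain hk hd h1
  obtain ⟨D, hD⟩ : ∃ D : ℤ, D = (rp (a + d) : ℤ) - rp a := ⟨_, rfl⟩
  rw [← hD] at h2 h3
  have hcast : (D : ZMod N) = d := by
    rw [hD]
    push_cast
    rw [rp_cast, rp_cast]
    ring
  have h4 := h2 (k - 1) (by omega)
  have h5 := h1 (k - 1) (by omega)
  have h6 := h1 0 (by omega)
  rw [Nat.cast_zero, zero_mul, add_zero] at h6
  have h7 := (rp_mem a).1
  have h8 := (rp_mem (a + ((k - 1 : ℕ) : ZMod N) * d)).1
  have hk1 : ((k - 1 : ℕ) : ℤ) = (k : ℤ) - 1 := by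
    rw [Nat.cast_sub (by omega)]
    rfl
  rw [hk1] at h4
  have hk2 : (2 : ℤ) ≤ k := by exact_mod_cast hk
  have hb1 : 2 * (((k : ℤ) - 1) * D) < N := by
    have e1 : (2 : ℤ) * rp (a + ((k - 1 : ℕ) : ZMod N) * d) < N := by exact_mod_cast h5
    have e2 : (1 : ℤ) ≤ rp a := by exact_mod_cast h7
    rw [h4] at e1
    linarith
  have hb2 : 2 * (((k : ℤ) - 1) * (-D)) < N := by
    have e1 : (2 : ℤ) * rp a < N := by exact_mod_cast h6
    have e2 : (1 : ℤ) ≤ rp (a + ((k - 1 : ℕ) : ZMod N) * d) := by exact_mod_cast h8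
    rw [h4] at e2
    linarith
  rcases lt_or_gt_of_ne h3 with hneg | hpos
  · right
    have e1 : (rp (-d) : ℤ) = -D := by
      apply rp_cast_natAbs (by omega)
      · nlinarith
      · push_cast
        rw [hcast]
    have e2 : ((2 * (k - 1) * rp (-d) : ℕ) : ℤ) < N := by
      push_cast
      rw [hk1, e1]
      linarith
    exact_mod_cast e2
  · left
    have e1 : (rp d : ℤ) = D := by
      apply rp_cast_natAbs hpos
      · nlinarith
      · exact hcast
    have e2 : ((2 * (k - 1) * rp d : ℕ) : ℤ) < N := by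
      push_cast
      rw [hk1, e1]
      linarith
    exact_mod_cast e2

open Classical in
/-- the positive good differences -/
noncomputable def GP (k N : ℕ) [NeZero N] (c : ℝ) (f : ZMod N → ℝ) : Finset ℕ :=
  (Icc 1 N).filter (fun d => 2 * (k - 1) * d < N ∧ ((d : ℕ) : ZMod N) ∈ GG k N c f)

theorem GP_card [NeZero N] (hk : 2 ≤ k) {T : Finset ℕ} {w c : ℝ} (hc : 0 < c) {x : ℕ} :
    (GG k N c (fX T w N x)).card ≤ 2 * (GP k N c (fX T w N x)).card + 1 := by
  classical
  set G := GG k N c (fX T w N x) with hG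
  have h1 : (G.erase 0).card ≤ (GP k N c (fX T w N x) ×ˢ (univ : Finset Bool)).card := by
    apply card_le_card_of_injOn (fun d => if 2 * (k - 1) * rp d < N then (rp d, true) else (rp (-d), false))
    · intro d hd
      rw [mem_coe, mem_erase] at hd
      by_cases h : 2 * (k - 1) * rp d < N
      · simp only [h, if_true]
        rw [mem_coe, mem_product]
        refine ⟨?_, mem_univ _⟩
        unfold GP
        rw [mem_filter, mem_Icc]
        refine ⟨rp_mem d, h, ?_⟩
        rw [rp_cast]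
        exact hd.2
      · simp only [h, if_false]
        rw [mem_coe, mem_product]
        refine ⟨?_, mem_univ _⟩
        unfold GP
        rw [mem_filter, mem_Icc]
        refine ⟨rp_mem _, (small_or hk hc hd.1 hd.2).resolve_left h, ?_⟩
        rw [rp_cast]
        exact GG_neg hd.2
    · intro d hd d' hd' h
      by_cases h1 : 2 * (k - 1) * rp d < N
      · by_cases h2 : 2 * (k - 1) * rp d' < N
        · simp only [h1, h2, if_true, Prod.mk.injEq, and_true] at h
          exact rp_inj h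
        · simp [h1, h2] at h
      · by_cases h2 : 2 * (k - 1) * rp d' < N
        · simp [h1, h2] at h
        · simp only [h1, h2, if_false, Prod.mk.injEq, and_true] at h
          exact neg_injective (rp_inj h)
  rw [card_product, card_univ, Fintype.card_bool] at h1
  have h2 := pred_card_le_card_erase (s := G) (a := 0)
  omega

/-- the number of the pairs in a window -/
theorem cnt_win [NeZero N] {T : Finset ℕ} {w c : ℝ} (hw : 0 ≤ w) {x d : ℕ}
    (hd : 2 * (k - 1) * d < N) {F : Finset (Fin k)} (hF : ∃ j ∈ F, (j : ℕ) = 0)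
    (h : c ≤ TF k N (fX T w N x) F (d : ZMod N)) :
    c * N ≤ w ^ F.card * (((Icc 1 N).filter (fun u => ∀ j ∈ F, x + u + j * d ∈ T)).card : ℝ) := by
  classical
  have hN : (0 : ℝ) < N := by exact_mod_cast Nat.pos_of_ne_zero (NeZero.ne N)
  obtain ⟨j0, hj0, hj00⟩ := hF
  set Q := (univ : Finset (ZMod N)).filter (fun a => ∀ j ∈ F,
    x + rp (a + ((j : ℕ) : ZMod N) * (d : ZMod N)) ∈ T ∧
    2 * rp (a + ((j : ℕ) : ZMod N) * (d : ZMod N)) < N) with hQ
  have h1 : TF k N (fX T w N x) F (d : ZMod N) = w ^ F.card * Q.card / N := by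
    unfold TF av
    rw [ZMod.card]
    congr 1
    have h2 : ∀ a : ZMod N, ∏ j ∈ F, fX T w N x (a + ((j : ℕ) : ZMod N) * (d : ZMod N)) = if a ∈ Q then w ^ F.card else 0 := by
      intro a
      by_cases ha : a ∈ Q
      · rw [if_pos ha]
        rw [hQ, mem_filter] at ha
        rw [← prod_const]
        apply prod_congr rfl
        intro j hj
        unfold fX
        rw [if_pos (ha.2 j hj)]
      · rw [if_neg ha]
        rw [hQ, mem_filter, not_and] at ha
        have ha' := ha (mem_univ _)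
        push Not at ha'
        obtain ⟨j, hj, hj2⟩ := ha'
        apply prod_eq_zero hj
        unfold fX
        rw [if_neg]
        intro hh
        exact absurd hh.2 (not_lt.2 (hj2 hh.1))
    rw [sum_congr rfl (fun a _ => h2 a), ← sum_filter, sum_const, nsmul_eq_mul, mul_comm]
    congr 3
    ext a
    simp
  rw [h1, le_div_iff₀ hN] at h
  refine h.trans (mul_le_mul_of_nonneg_left ?_ (pow_nonneg hw _))
  have h2 : Q.card ≤ ((Icc 1 N).filter (fun u => ∀ j ∈ F, x + u + j * d ∈ T)).card := by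
    apply card_le_card_of_injOn (fun a => rp a)
    · intro a ha
      rw [mem_coe, hQ, mem_filter] at ha
      rw [mem_coe, mem_filter, mem_Icc]
      refine ⟨rp_mem a, fun j hj => ?_⟩
      have h3 := ha.2 j0 hj0
      rw [hj00, Nat.cast_zero, zero_mul, add_zero] at h3
      obtain ⟨h4, h5⟩ := ha.2 j hj
      have h6 : rp (a + ((j : ℕ) : ZMod N) * (d : ZMod N)) = rp a + j * d := by
        have h7 := rp_mem a
        have h8 := rp_mem (a + ((j : ℕ) : ZMod N) * (d : ZMod N))
        have h9 : (((rp (a + ((j : ℕ) : ZMod N) * (d : ZMod N)) : ℕ) : ℤ) : ZMod N) = (((rp a + j * d : ℕ) : ℤ) : ZMod N) := by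
          push_cast
          rw [rp_cast, rp_cast]
        rw [← sub_eq_zero, ← Int.cast_sub, ZMod.intCast_zmod_eq_zero_iff_dvd] at h9
        have h10 : (j : ℕ) * d ≤ (k - 1) * d := Nat.mul_le_mul_right _ (by have := j.2; omega)
        have h11 : 2 * ((k - 1) * d) < N := by rw [← mul_assoc]; exact hd
        have h12 : ((rp (a + ((j : ℕ) : ZMod N) * (d : ZMod N)) : ℕ) : ℤ) - ((rp a + j * d : ℕ) : ℤ) = 0 := by
          apply Int.eq_zero_of_abs_lt_dvd h9
          rw [abs_lt]
          constructor <;> omega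
        omega
      rw [add_assoc, ← h6]
      exact h4
    · intro a _ b _ hab
      exact rp_inj hab
  exact_mod_cast h2

/-- **many good differences** -/
theorem winp [NeZero N] (hk : 2 ≤ k) (T : Finset ℕ) {w c : ℝ} (hw : 0 ≤ w) (hc : 0 < c)
    (I : Finset ℕ) (hI : ∀ x ∈ I, c * N ≤ ((GG k N c (fX T w N x)).card : ℝ)) (hI0 : 0 < I.card)
    (hN : 2 ≤ c * N) :
    c / 8 * N ≤ (((Icc 1 N).filter (fun d => ∀ F : Finset (Fin k), (∃ j ∈ F, (j : ℕ) = 0) →
      c ^ 2 / 8 * I.card ≤ w ^ F.card * (ct T F d : ℝ))).card : ℝ) := by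
  classical
  have hN0 : (0 : ℝ) < N := by exact_mod_cast Nat.pos_of_ne_zero (NeZero.ne N)
  have hI0' : (0 : ℝ) < I.card := by exact_mod_cast hI0
  obtain ⟨Id, hId⟩ : ∃ Id : ℕ → Finset ℕ, Id = fun d => I.filter (fun x => d ∈ GP k N c (fX T w N x)) := ⟨_, rfl⟩
  -- a single good difference
  have hsing : ∀ d : ℕ, c / 8 * I.card ≤ ((Id d).card : ℝ) → ∀ F : Finset (Fin k), (∃ j ∈ F, (j : ℕ) = 0) →
      c ^ 2 / 8 * I.card ≤ w ^ F.card * (ct T F d : ℝ) := by
    intro d hd F hF
    have h1 : ((Id d).card : ℝ) * (c * N) ≤ w ^ F.card * (∑ x ∈ Id d,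
        (((Icc 1 N).filter (fun u => ∀ j ∈ F, x + u + j * d ∈ T)).card : ℝ)) := by
      rw [mul_sum, ← nsmul_eq_mul, ← sum_const]
      apply sum_le_sum
      intro x hx
      rw [hId, mem_filter] at hx
      have hx2 := hx.2
      unfold GP at hx2
      rw [mem_filter] at hx2
      have hx3 := hx2.2.2
      unfold GG at hx3
      rw [mem_filter] at hx3
      exact cnt_win hw hx2.2.1 hF (hx3.2 F)
    have h2 : ∑ x ∈ Id d, ((Icc 1 N).filter (fun u => ∀ j ∈ F, x + u + j * d ∈ T)).card ≤ N * ct T F d := by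
      have h3 : ∑ x ∈ Id d, ((Icc 1 N).filter (fun u => ∀ j ∈ F, x + u + j * d ∈ T)).card =
          ((Id d ×ˢ Icc 1 N).filter (fun q => ∀ j ∈ F, q.1 + q.2 + j * d ∈ T)).card := by
        rw [card_filter, sum_product]
        apply sum_congr rfl
        intro x _
        rw [card_filter]
      rw [h3]
      unfold ct
      have hNc : N * (T.filter (fun n => ∀ j ∈ F, n + j * d ∈ T)).card =
          (Icc 1 N ×ˢ T.filter (fun n => ∀ j ∈ F, n + j * d ∈ T)).card := by
        rw [card_product, Nat.card_Icc, Nat.add_sub_cancel]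
      rw [hNc]
      apply card_le_card_of_injOn (fun q => (q.2, q.1 + q.2))
      · intro q hq
        rw [mem_coe, mem_filter, mem_product] at hq
        rw [mem_coe, mem_product, mem_filter]
        refine ⟨hq.1.2, ?_, hq.2⟩
        obtain ⟨j0, hj0, hj00⟩ := hF
        have := hq.2 j0 hj0
        rwa [hj00, zero_mul, add_zero] at this
      · intro q _ q' _ h
        simp only [Prod.mk.injEq] at h
        exact Prod.ext (by omega) h.1
    have h3 : (∑ x ∈ Id d, (((Icc 1 N).filter (fun u => ∀ j ∈ F, x + u + j * d ∈ T)).card : ℝ)) ≤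
        N * (ct T F d : ℝ) := by exact_mod_cast h2
    have h4 := h1.trans (mul_le_mul_of_nonneg_left h3 (pow_nonneg hw _))
    have h5 : ((Id d).card : ℝ) * c * N ≤ w ^ F.card * (ct T F d : ℝ) * N := by linarith
    have h6 := le_of_mul_le_mul_right h5 hN0
    refine le_trans ?_ h6
    calc c ^ 2 / 8 * I.card = (c / 8 * I.card) * c := by ring
      _ ≤ _ := mul_le_mul_of_nonneg_right hd hc.le
  -- double counting
  have hdc : (I.card : ℝ) * (c * N / 4) ≤ ∑ d ∈ Icc 1 N, ((Id d).card : ℝ) := by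
    have h1 : ∑ d ∈ Icc 1 N, (Id d).card = ∑ x ∈ I, (GP k N c (fX T w N x)).card := by
      have h2 : ∀ d, (Id d).card = ∑ x ∈ I, if d ∈ GP k N c (fX T w N x) then 1 else 0 := by
        intro d
        rw [hId, card_filter]
      simp_rw [h2]
      rw [sum_comm]
      apply sum_congr rfl
      intro x _
      rw [← card_filter]
      congr 1
      ext d
      rw [mem_filter]
      constructor
      · exact fun h => h.2
      · intro h
        refine ⟨?_, h⟩
        unfold GP at h
        exact (mem_filter.1 h).1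
    have h3 : ∑ d ∈ Icc 1 N, ((Id d).card : ℝ) = ∑ x ∈ I, ((GP k N c (fX T w N x)).card : ℝ) := by
      exact_mod_cast h1
    rw [h3, ← nsmul_eq_mul, ← sum_const]
    apply sum_le_sum
    intro x hx
    have h4 := hI x hx
    have h5 := GP_card (N := N) hk (T := T) (w := w) hc (x := x)
    have h6 : ((GG k N c (fX T w N x)).card : ℝ) ≤ 2 * ((GP k N c (fX T w N x)).card : ℝ) + 1 := by
      exact_mod_cast h5
    linarith
  set P := (Icc 1 N).filter (fun d => c / 8 * I.card ≤ ((Id d).card : ℝ)) with hP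
  have h1 : ∑ d ∈ Icc 1 N, ((Id d).card : ℝ) ≤ P.card * I.card + N * (c / 8 * I.card) := by
    rw [← sum_filter_add_sum_filter_not (Icc 1 N) (fun d => c / 8 * I.card ≤ ((Id d).card : ℝ))]
    apply add_le_add
    · rw [← nsmul_eq_mul, ← sum_const]
      apply sum_le_sum
      intro d _
      rw [hId]
      exact_mod_cast card_filter_le _ _
    · calc ∑ d ∈ (Icc 1 N).filter (fun d => ¬ c / 8 * I.card ≤ ((Id d).card : ℝ)), ((Id d).card : ℝ)
          ≤ ∑ d ∈ (Icc 1 N).filter (fun d => ¬ c / 8 * I.card ≤ ((Id d).card : ℝ)), (c / 8 * I.card : ℝ) := by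
            apply sum_le_sum
            intro d hd
            exact (not_le.1 (mem_filter.1 hd).2).le
        _ = (((Icc 1 N).filter (fun d => ¬ c / 8 * I.card ≤ ((Id d).card : ℝ))).card : ℝ) * (c / 8 * I.card) := by
            rw [sum_const, nsmul_eq_mul]
        _ ≤ N * (c / 8 * I.card) := by
            apply mul_le_mul_of_nonneg_right _ (by positivity)
            have := card_filter_le (Icc 1 N) (fun d => ¬ c / 8 * I.card ≤ ((Id d).card : ℝ))
            rw [Nat.card_Icc, Nat.add_sub_cancel] at this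
            exact_mod_cast this
  have h2 : c / 8 * N * I.card ≤ P.card * I.card := by nlinarith
  have h3 : c / 8 * N ≤ P.card := le_of_mul_le_mul_right h2 hI0'
  refine h3.trans ?_
  apply Nat.cast_le.2
  apply card_le_card
  intro d hd
  rw [hP, mem_filter] at hd
  rw [mem_filter]
  exact ⟨hd.1, hsing d hd.2⟩

end Pool.Agent.X26.DP
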