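import Pool.Agent.X26.DP.CntA
import Pool.Agent.Y843.AC.CntB

/-!
# All patterns in a common dilate: sifted sets (adapted from `Y843.AC.CntB`)
-/

set_option autoImplicit false

namespace Pool.Agent.X26.DP

open Finset
open Pool.Agent.Y843.HS
open Pool.Agent.Y843.AC (OK Av)

/-- **all patterns in a common dilate, in dense subsets of sifted sets** -/
theorem cntB (hTH : S_TH) (hCOR : S_COR) (hGAV : S_GAV) (hDEN : S_DEN)
    (hSLF : Pool.Agent.Y727.PSP.S_SLF) (hCNT : Pool.Agent.Y727.PSP.S_CNT) (hDMT : Pool.Agent.Y727.PSP.S_DMT)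
    (hPHI : Pool.Agent.Y727.PSP.S_PHI) (hVAR : Pool.Agent.Y727.PSP.S_VAR) (r k : ℕ) (κ δ : ℝ) (hk2 : 2 ≤ k)
    (hκ : 0 < κ) (hδ : 0 < δ) : ∃ c : ℝ, 0 < c ∧ ∃ B X₀ : ℕ, ∀ X A D : ℕ, X₀ ≤ X → Real.log X ^ B ≤ D → D ≤ X →
    ∀ Z : ℕ → Finset ℕ, OK r κ X Z → ∀ S : Finset ℕ, S ⊆ Ioc A (A + X) → (∀ n ∈ S, Av κ X Z n) →
    δ * X * VV Z 0 ⌊(X : ℝ) ^ κ⌋₊ ≤ (S.card : ℝ) →
    c * D ≤ (((Icc 1 D).filter (fun d => ∀ F : Finset (Fin k), (∃ j ∈ F, (j : ℕ) = 0) →
      c * X * VV Z 0 ⌊(X : ℝ) ^ κ⌋₊ ^ F.card ≤ (ct S F d : ℝ))).card : ℝ) := by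
  classical
  set L := ⌈2 / κ⌉₊ + ⌈2 * κ⌉₊ + 1 with hL
  have hL1 : 2 / κ ≤ L := by
    rw [hL]; push_cast
    have := Nat.le_ceil (2 / κ)
    have h2 : (0 : ℝ) ≤ (⌈2 * κ⌉₊ : ℝ) := Nat.cast_nonneg _
    linarith
  have hL2 : 2 * κ ≤ L := by
    rw [hL]; push_cast
    have := Nat.le_ceil (2 * κ)
    have h2 : (0 : ℝ) ≤ (⌈2 / κ⌉₊ : ℝ) := Nat.cast_nonneg _
    linarith
  have hL3 : 1 ≤ L := by omega
  clear_value L
  obtain ⟨s, c₀, hc₀, hs⟩ := cntA hTH hCOR hGAV hDEN hSLF hCNT hDMT hPHI hVAR hk2 r L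
    (show (0 : ℝ) < δ / 2 by positivity)
  obtain ⟨B, X₁, hX₁⟩ := hs s le_rfl
  set W := ∏ p ∈ Pr 0 s, p with hW
  have hW1 : 1 ≤ W := Nat.one_le_iff_ne_zero.2 (prod_ne_zero_iff.2 fun p hp => (Pr_prime hp).ne_zero)
  have hW0 : (0 : ℝ) < W := by exact_mod_cast hW1
  obtain ⟨X₂, hX₂⟩ := log_ge (2 * 2 ^ B * W + 2 * W + 1)
  -- `s + 2 ≤ X ^ κ`
  obtain ⟨X₃, hX₃⟩ := log_ge (Real.log (s + 2) / κ)
  refine ⟨c₀ / (2 * W), by positivity, B + 1,
    max (max (W * X₁) X₂) (max X₃ (max (W ^ 2) (max (4 * W) (2 ^ (L + 2))))), ?_⟩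
  intro X A D hX hBD hDX Z hZ S hSA hSZ hSc
  have hXX₁ : W * X₁ ≤ X := (le_max_left _ _).trans ((le_max_left _ _).trans hX)
  have hXX₂ := hX₂ X ((le_max_right _ _).trans ((le_max_left _ _).trans hX))
  have hXX₃ := hX₃ X ((le_max_left _ _).trans ((le_max_right _ _).trans hX))
  have hX' := (le_max_right _ _).trans ((le_max_right _ _).trans hX)
  have hXX₄ : W ^ 2 ≤ X := (le_max_left _ _).trans hX'
  have hXX₅ : 4 * W ≤ X := (le_max_left _ _).trans ((le_max_right _ _).trans hX')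
  have hXX₆ : 2 ^ (L + 2) ≤ X := (le_max_right _ _).trans ((le_max_right _ _).trans hX')
  have hX4 : 4 ≤ X := by omega
  have hX0 : (0 : ℝ) < X := by exact_mod_cast (show 0 < X by omega)
  have hX1 : (1 : ℝ) ≤ X := by exact_mod_cast (show 1 ≤ X by omega)
  set Y := ⌊(X : ℝ) ^ κ⌋₊ with hY
  have hXκ0 : 0 < (X : ℝ) ^ κ := by positivity
  have hYle : (Y : ℝ) ≤ (X : ℝ) ^ κ := Nat.floor_le hXκ0.le
  have hYlt : (X : ℝ) ^ κ < Y + 1 := Nat.lt_floor_add_one _
  have hs2 : ((s : ℝ) + 2) ≤ (X : ℝ) ^ κ := by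
    rw [Real.rpow_def_of_pos hX0, ← Real.log_le_iff_le_exp (by positivity)]
    rw [div_le_iff₀ hκ] at hXX₃
    exact hXX₃
  have hsY : s + 2 ≤ Y := by
    rw [hY]
    apply Nat.le_floor
    push_cast
    exact hs2
  have hYhalf : (X : ℝ) ^ κ ≤ 2 * Y := by
    have : (1 : ℝ) ≤ Y := by exact_mod_cast (show 1 ≤ Y by omega)
    linarith
  have hmemY : ∀ p ∈ Pr 0 Y, p.Prime ∧ (p : ℝ) ≤ (X : ℝ) ^ κ := by
    intro p hp
    rw [Pr_mem] at hp
    exact ⟨hp.2, (by exact_mod_cast hp.1.2 : (p : ℝ) ≤ Y).trans hYle⟩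
  -- the class modulo `W`
  have hZs : ∀ p ∈ Pr 0 s, ∀ c ∈ Z p, c < p := by
    intro p hp c hc
    have h1 : p ∈ Pr 0 Y := by
      rw [Pr_mem] at hp ⊢
      exact ⟨⟨hp.1.1, by omega⟩, hp.2⟩
    obtain ⟨h2, h3⟩ := hmemY p h1
    exact (hZ p h2 h3).2.2 c hc
  have hVV0 : 0 < VV Z 0 s := by
    unfold VV
    apply prod_pos
    intro p hp
    have h1 : p ∈ Pr 0 Y := by
      rw [Pr_mem] at hp ⊢
      exact ⟨⟨hp.1.1, by omega⟩, hp.2⟩
    obtain ⟨h2, h3⟩ := hmemY p h1
    have h4 := (hZ p h2 h3).2.1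
    have hp0 : (0 : ℝ) < p := by exact_mod_cast h2.pos
    have h5 : ((Z p).card : ℝ) / p < 1 := by
      rw [div_lt_one hp0]
      exact_mod_cast h4
    linarith
  set adm := (range W).filter (fun a => ∀ p ∈ Pr 0 s, a % p ∈ (range p).filter (fun c => c ∉ Z p))
    with hadm
  have hadmc : (adm.card : ℝ) = W * VV Z 0 s := prod_adm hZs
  have hadm0 : (0 : ℝ) < adm.card := by rw [hadmc]; positivity
  have hadmne : adm.Nonempty := by
    rw [← card_pos]
    exact_mod_cast hadm0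
  have hmaps : ∀ n ∈ S, n % W ∈ adm := by
    intro n hn
    rw [hadm, mem_filter, mem_range]
    refine ⟨Nat.mod_lt _ hW1, ?_⟩
    intro p hp
    rw [Nat.mod_mod_of_dvd _ (dvd_prod_of_mem _ hp), mem_filter, mem_range]
    refine ⟨Nat.mod_lt _ (Pr_prime hp).pos, ?_⟩
    have h1 : p ∈ Pr 0 Y := by
      rw [Pr_mem] at hp ⊢
      exact ⟨⟨hp.1.1, by omega⟩, hp.2⟩
    obtain ⟨h2, h3⟩ := hmemY p h1
    exact hSZ n hn p h2 h3
  obtain ⟨b, hb, hbS⟩ : ∃ b ∈ adm, (S.card : ℝ) / adm.card ≤ ((S.filter (fun n => n % W = b)).card : ℝ) := by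
    apply exists_le_of_sum_le hadmne
    rw [sum_const, nsmul_eq_mul]
    have h1 := card_eq_sum_card_fiberwise hmaps
    have h2 : (S.card : ℝ) = ∑ b ∈ adm, ((S.filter (fun n => n % W = b)).card : ℝ) := by
      exact_mod_cast h1
    rw [← h2, mul_div_cancel₀]
    exact hadm0.ne'
  set Sb := S.filter (fun n => n % W = b) with hSb
  set T := Sb.image (fun n => n / W + 1) with hT
  set X' := X / W + 2 with hX'def
  have hTc : T.card = Sb.card := by
    apply card_image_of_injOn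
    intro n hn m hm h
    rw [mem_coe, hSb, mem_filter] at hn hm
    have h1 : n / W = m / W := by
      have : n / W + 1 = m / W + 1 := h
      omega
    rw [← Nat.div_add_mod n W, ← Nat.div_add_mod m W, h1, hn.2, hm.2]
  have hTA : T ⊆ Ioc (A / W) (A / W + X') := by
    intro t ht
    rw [hT, mem_image] at ht
    obtain ⟨n, hn, rfl⟩ := ht
    rw [hSb, mem_filter] at hn
    have h1 := mem_Ioc.1 (hSA hn.1)
    rw [mem_Ioc]
    have h2 : A / W ≤ n / W := Nat.div_le_div_right h1.1.le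
    have h3 : n / W ≤ (A + X) / W := Nat.div_le_div_right h1.2
    have h4 : (A + X) / W < A / W + X / W + 2 := by
      rw [Nat.div_lt_iff_lt_mul hW1]
      have h5 := Nat.div_add_mod A W
      have h6 := Nat.div_add_mod X W
      have h7 := Nat.mod_lt A hW1
      have h8 := Nat.mod_lt X hW1
      have h9 : (A / W + X / W + 2) * W = W * (A / W) + W * (X / W) + 2 * W := by ring
      rw [h9]
      generalize W * (A / W) = u at *
      generalize W * (X / W) = v at *
      generalize A % W = u' at *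
      generalize X % W = v' at *
      omega
    rw [hX'def]
    generalize A / W = u at *
    generalize X / W = v at *
    generalize n / W = n' at *
    generalize (A + X) / W = m' at *
    omega
  set Z' : ℕ → Finset ℕ := fun p => (range p).filter (fun c => (b + W * (c + (p - 1))) % p ∈ Z p)
    with hZ'
  have hndvd : ∀ p ∈ Pr s Y, ¬ p ∣ W := by
    intro p hp hpW
    rw [hW, (Pr_prime hp).prime.dvd_finsetProd_iff] at hpW
    obtain ⟨q, hq, hpq⟩ := hpW
    have h1 := (Nat.prime_dvd_prime_iff_eq (Pr_prime hp) (Pr_prime hq)).1 hpq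
    have h2 := (Pr_mem.1 hq).1.2
    have h3 := (Pr_mem.1 hp).1.1
    omega
  have hsub : ∀ p ∈ Pr s Y, p ∈ Pr 0 Y := by
    intro p hp
    rw [Pr_mem] at hp ⊢
    exact ⟨⟨by omega, hp.1.2⟩, hp.2⟩
  have hcardZ' : ∀ p ∈ Pr s Y, (Z' p).card = (Z p).card := by
    intro p hp
    obtain ⟨h2, h3⟩ := hmemY p (hsub p hp)
    exact card_pull h2 (hndvd p hp) (hZ p h2 h3).2.2
  have hSv : Sv r s Y Z' := by
    intro p hp
    obtain ⟨h2, h3⟩ := hmemY p (hsub p hp)
    refine ⟨by rw [hcardZ' p hp]; exact (hZ p h2 h3).1, ?_⟩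
    intro c hc
    rw [hZ', mem_filter, mem_range] at hc
    exact hc.1
  have hVVeq : VV Z' s Y = VV Z s Y := by
    unfold VV
    apply prod_congr rfl
    intro p hp
    rw [hcardZ' p hp]
  have hTZ : ∀ t ∈ T, ∀ p ∈ Pr s Y, t % p ∉ Z' p := by
    intro t ht p hp
    rw [hT, mem_image] at ht
    obtain ⟨n, hn, rfl⟩ := ht
    rw [hSb, mem_filter] at hn
    obtain ⟨h2, h3⟩ := hmemY p (hsub p hp)
    have h4 := hSZ n hn.1 p h2 h3
    rw [hZ', mem_filter]
    rintro ⟨_, h5⟩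
    apply h4
    have h6 : (b + W * ((n / W + 1) % p + (p - 1))) % p = n % p := by
      have e1 : b + W * ((n / W + 1) % p + (p - 1)) ≡ b + W * ((n / W + 1) + (p - 1)) [MOD p] :=
        Nat.ModEq.add_left _ (Nat.ModEq.mul_left _ (Nat.ModEq.add_right _ (Nat.mod_modEq _ _)))
      have e2 : b + W * ((n / W + 1) + (p - 1)) = n + W * p := by
        have e3 := Nat.div_add_mod n W
        rw [hn.2] at e3
        have e4 : (n / W + 1) + (p - 1) = n / W + p := by
          have := h2.pos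
          omega
        rw [e4, mul_add]
        omega
      rw [e2] at e1
      have e3 : n + W * p ≡ n [MOD p] := by
        unfold Nat.ModEq
        rw [Nat.add_mul_mod_self_right]
      exact e1.trans e3
    rwa [h6] at h5
  -- sizes
  have hXW : (X : ℝ) / W ≤ X' := by
    rw [hX'def, div_le_iff₀ hW0]
    have h1 := Nat.div_add_mod X W
    have h2 := Nat.mod_lt X hW1
    have h3 : X ≤ (X / W + 2) * W := by nlinarith
    exact_mod_cast h3
  have hX'X : X' ≤ 2 * X := by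
    have := Nat.div_le_self X W
    omega
  have hX'W : (X' : ℝ) ≤ 2 * X / W := by
    rw [hX'def, le_div_iff₀ hW0]
    have h1 := Nat.div_mul_le_self X W
    have h3 : (X / W + 2) * W ≤ 2 * X := by nlinarith
    exact_mod_cast h3
  have hXX' : X₁ ≤ X' := by
    have : X₁ ≤ X / W := (Nat.le_div_iff_mul_le hW1).2 (by rwa [mul_comm])
    omega
  have hX'Y : X' ≤ Y ^ L := by
    have h1 : (2 * X : ℝ) ≤ (Y : ℝ) ^ L := by
      have h2 : ((X : ℝ) ^ κ) ^ L ≤ (2 * (Y : ℝ)) ^ L := pow_le_pow_left₀ hXκ0.le hYhalf L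
      have h3 : (X : ℝ) ^ 2 ≤ ((X : ℝ) ^ κ) ^ L := by
        rw [← Real.rpow_natCast ((X : ℝ) ^ κ) L, ← Real.rpow_mul hX0.le, ← Real.rpow_natCast (X : ℝ) 2]
        apply Real.rpow_le_rpow_of_exponent_le hX1
        rw [div_le_iff₀ hκ] at hL1
        push_cast
        linarith
      rw [mul_pow] at h2
      have h4 : (2 : ℝ) ^ (L + 2) ≤ X := by exact_mod_cast hXX₆
      have h5 : (2 : ℝ) ^ L * (2 * X) ≤ 2 ^ L * (Y : ℝ) ^ L := by
        refine le_trans ?_ (h3.trans h2)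
        have h6 : (2 : ℝ) ^ L * (2 * X) ≤ (2 : ℝ) ^ (L + 2) * X := by
          rw [pow_add]
          nlinarith [show (0 : ℝ) ≤ 2 ^ L * X by positivity]
        have h7 : (2 : ℝ) ^ (L + 2) * X ≤ X * X := mul_le_mul_of_nonneg_right h4 hX0.le
        rw [← pow_two] at h7
        exact h6.trans h7
      exact le_of_mul_le_mul_left h5 (by positivity)
    have h2 : (X' : ℝ) ≤ (Y : ℝ) ^ L := (by exact_mod_cast hX'X : (X' : ℝ) ≤ 2 * X).trans h1
    exact_mod_cast h2
  have hYX' : Y ≤ X' ^ L := by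
    have h1 : (Y : ℝ) ≤ (X' : ℝ) ^ L := by
      refine hYle.trans ?_
      have h2 : (X : ℝ) ^ (1 / 2 : ℝ) ≤ X' := by
        refine le_trans ?_ hXW
        rw [le_div_iff₀ hW0]
        have h3 : (W : ℝ) ≤ (X : ℝ) ^ (1 / 2 : ℝ) := by
          rw [← Real.sqrt_eq_rpow]
          apply Real.le_sqrt_of_sq_le
          exact_mod_cast hXX₄
        calc (X : ℝ) ^ (1 / 2 : ℝ) * W ≤ (X : ℝ) ^ (1 / 2 : ℝ) * (X : ℝ) ^ (1 / 2 : ℝ) :=
              mul_le_mul_of_nonneg_left h3 (by positivity)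
          _ = X := by rw [← Real.rpow_add hX0]; norm_num
      calc (X : ℝ) ^ κ ≤ (X : ℝ) ^ ((1 / 2 : ℝ) * L) := by
            apply Real.rpow_le_rpow_of_exponent_le hX1
            linarith
        _ = ((X : ℝ) ^ (1 / 2 : ℝ)) ^ L := by
            rw [Real.rpow_mul hX0.le, Real.rpow_natCast]
        _ ≤ (X' : ℝ) ^ L := pow_le_pow_left₀ (by positivity) h2 L
    exact_mod_cast h1
  have hVsY : 0 ≤ VV Z s Y := by
    unfold VV
    apply prod_nonneg
    intro p hp
    obtain ⟨h2, h3⟩ := hmemY p (hsub p hp)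
    exact one_sub_nonneg (hZ p h2 h3).2.2
  have hTcard : δ / 2 * X' * VV Z' s Y ≤ T.card := by
    rw [hTc, hVVeq]
    refine le_trans ?_ hbS
    rw [hadmc, le_div_iff₀ (by positivity)]
    refine le_trans ?_ hSc
    rw [← VV_split Z (Nat.zero_le s) (show s ≤ Y by omega)]
    have h1 : (X' : ℝ) * W ≤ 2 * X := by
      rw [le_div_iff₀ hW0] at hX'W
      exact hX'W
    have h2 := mul_le_mul_of_nonneg_right h1 (show 0 ≤ δ / 2 * (VV Z 0 s * VV Z s Y) by positivity)
    linarith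
  set D' := D / W with hD'
  have hX'2 : 2 ≤ X' := by
    rw [hX'def]
    exact Nat.le_add_left _ _
  have hlog0 : 0 ≤ Real.log X := Real.log_nonneg hX1
  have hlog1 : 1 ≤ Real.log X := by
    have h1 : (0 : ℝ) ≤ 2 * 2 ^ B * W + 2 * W := by positivity
    linarith
  have hDW2 : (D : ℝ) ≤ 2 * W * D' := by
    have h1 := Nat.div_add_mod D W
    have h2 := Nat.mod_lt D hW1
    have h3 : 2 * W ≤ D := by
      have h4 : ((2 * W : ℕ) : ℝ) ≤ D := by
        push_cast
        have h5 : Real.log X ≤ Real.log X ^ (B + 1) := by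
          calc Real.log X = Real.log X ^ 1 := (pow_one _).symm
            _ ≤ _ := pow_le_pow_right₀ hlog1 (by omega)
        have h6 : (0 : ℝ) ≤ 2 * 2 ^ B * W := by positivity
        linarith
      exact_mod_cast h4
    have h4 : D ≤ 2 * (W * (D / W)) := by omega
    have h5 : (D : ℝ) ≤ 2 * (W * D') := by exact_mod_cast h4
    linarith
  have hlogX' : Real.log X' ≤ 2 * Real.log X := by
    have h1 : (X' : ℝ) ≤ (X : ℝ) ^ 2 := by
      have h2 : X' ≤ X ^ 2 := by nlinarith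
      exact_mod_cast h2
    have h3 : Real.log X' ≤ Real.log ((X : ℝ) ^ 2) := by
      apply Real.log_le_log _ h1
      exact_mod_cast (show 0 < X' from lt_of_lt_of_le (by norm_num) hX'2)
    rwa [Real.log_pow] at h3
  have hlog0' : 0 ≤ Real.log X' := Real.log_nonneg (by
    exact_mod_cast (show 1 ≤ X' from le_trans (by norm_num) hX'2))
  have hD'B : Real.log X' ^ B ≤ D' := by
    have h1 : Real.log X' ^ B ≤ (2 * Real.log X) ^ B := pow_le_pow_left₀ hlog0' hlogX' B
    have h2 : (2 * Real.log X) ^ B * (2 * W) ≤ 2 * W * D' := by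
      refine le_trans ?_ hDW2
      refine le_trans ?_ hBD
      calc (2 * Real.log X) ^ B * (2 * W) = (2 * 2 ^ B * W) * Real.log X ^ B := by rw [mul_pow]; ring
        _ ≤ Real.log X * Real.log X ^ B := by
            apply mul_le_mul_of_nonneg_right _ (by positivity)
            linarith
        _ = Real.log X ^ (B + 1) := by rw [pow_succ]; ring
    have h3 : (2 * Real.log X) ^ B ≤ D' := by
      have h4 : (2 * (W : ℝ)) * (2 * Real.log X) ^ B ≤ 2 * W * D' := by linarith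
      exact le_of_mul_le_mul_left h4 (by positivity)
    exact h1.trans h3
  have hD'X' : D' ≤ X' := by
    have : D / W ≤ X / W := Nat.div_le_div_right hDX
    omega
  have hmain := hX₁ X' Y (A / W) D' hXX' hX'Y hYX' hD'B hD'X' Z' hSv T hTA hTZ hTcard
  -- the injection
  have hge1 : ∀ t ∈ T, 1 ≤ t := fun t ht => (Nat.zero_le _).trans_lt (mem_Ioc.1 (hTA ht)).1
  have hTS : ∀ u d : ℕ, 1 ≤ u → u + d ∈ T → b + W * (u - 1) + W * d ∈ S := by
    intro u d hu hud
    rw [hT, mem_image] at hud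
    obtain ⟨n, hn, hnj⟩ := hud
    rw [hSb, mem_filter] at hn
    have h2 : b + W * (u - 1) + W * d = n := by
      have e1 := Nat.div_add_mod n W
      rw [hn.2] at e1
      have e2 : n / W = (u - 1) + d := by omega
      rw [e2] at e1
      rw [← e1]
      ring
    rw [h2]
    exact hn.1
  have hct : ∀ (F : Finset (Fin k)) (d : ℕ), ct T F d ≤ ct S F (W * d) := by
    intro F d
    unfold ct
    apply card_le_card_of_injOn (fun n => b + W * (n - 1))
    · intro n hn
      rw [mem_coe, mem_filter] at hn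
      rw [mem_coe, mem_filter]
      have h1 := hge1 n hn.1
      refine ⟨?_, fun j hj => ?_⟩
      · have := hTS n 0 h1 (by simpa using hn.1)
        simpa using this
      · have h2 := hTS n (j * d) h1 (hn.2 j hj)
        have e : (j : ℕ) * (W * d) = W * (j * d) := by ring
        show b + W * (n - 1) + j * (W * d) ∈ S
        rw [e]
        exact h2
    · intro n hn m hm h
      rw [mem_coe, mem_filter] at hn hm
      have h1 := hge1 n hn.1
      have h2 := hge1 m hm.1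
      simp only at h
      have h3 : W * (n - 1) = W * (m - 1) := by omega
      have h4 := Nat.eq_of_mul_eq_mul_left hW1 h3
      omega
  have hV1 : VV Z 0 Y ≤ VV Z s Y := by
    rw [← VV_split Z (Nat.zero_le s) (show s ≤ Y by omega)]
    apply mul_le_of_le_one_left hVsY
    unfold VV
    apply Finset.prod_le_one
    · intro p hp
      have h1 : p ∈ Pr 0 Y := by
        rw [Pr_mem] at hp ⊢
        exact ⟨⟨hp.1.1, by omega⟩, hp.2⟩
      obtain ⟨h2, h3⟩ := hmemY p h1
      exact one_sub_nonneg (hZ p h2 h3).2.2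
    · intro p _
      have : (0 : ℝ) ≤ ((Z p).card : ℝ) / p := by positivity
      linarith
  have hV0 : 0 ≤ VV Z 0 Y := by
    rw [← VV_split Z (Nat.zero_le s) (show s ≤ Y by omega)]
    positivity
  have h2 : (D : ℝ) / (2 * W) ≤ D' := by
    rw [div_le_iff₀ (by positivity)]
    linarith
  have h3 : c₀ / (2 * W) * D ≤ c₀ * D' := by
    calc c₀ / (2 * W) * D = c₀ * (D / (2 * W)) := by ring
      _ ≤ _ := mul_le_mul_of_nonneg_left h2 hc₀.le
  refine (h3.trans hmain).trans ?_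
  apply Nat.cast_le.2
  apply card_le_card_of_injOn (fun d => W * d)
  · intro d hd
    rw [mem_coe, mem_filter, mem_Icc] at hd
    rw [mem_coe, mem_filter, mem_Icc]
    refine ⟨⟨Nat.mul_pos hW1 hd.1.1, ?_⟩, fun F hF => ?_⟩
    · calc W * d ≤ W * (D / W) := Nat.mul_le_mul_left _ hd.1.2
        _ ≤ D := Nat.mul_div_le _ _
    · have h4 := hd.2 F hF
      rw [hVVeq] at h4
      have h5 : (ct T F d : ℝ) ≤ (ct S F (W * d) : ℝ) := by exact_mod_cast hct F d
      refine le_trans ?_ (h4.trans h5)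
      have h6 : VV Z 0 Y ^ F.card ≤ VV Z s Y ^ F.card := pow_le_pow_left₀ hV0 hV1 _
      calc c₀ / (2 * W) * X * VV Z 0 Y ^ F.card = c₀ * (X / (2 * W)) * VV Z 0 Y ^ F.card := by ring
        _ ≤ c₀ * X' * VV Z s Y ^ F.card := by
            have h7 : (X : ℝ) / (2 * W) ≤ X' := by
              refine le_trans ?_ hXW
              apply div_le_div_of_nonneg_left hX0.le hW0
              linarith
            gcongr
  · intro d _ d' _ h
    exact Nat.eq_of_mul_eq_mul_left hW1 h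

end Pool.Agent.X26.DP
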