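import Pool.Agent.X26.DP.Rs
import Pool.Agent.Y843.HS.Lfm

/-!
# The weight satisfies the linear forms condition in most windows (adapted from `Y843.HS.Lfm`)
-/

set_option autoImplicit false

open Finset

namespace Pool.Agent.X26.DP

open Pool.Agent.H602R3.DHJ (av av_prod av_const av_mono av_nonneg av_add av_sub av_mul av_sum)
open Pool.Agent.Y727.PSP
open Pool.Agent.Y843.HS
open Pool.Agent.Y79.PSP.MK (cast_ne)

section forms

variable {k N : ℕ}

theorem Lp_add (j : Fin k) (x y : Option (Fin k) → ZMod N) : Lp j (x + y) = Lp j x + Lp j y := by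
  rw [Lp_eq, Lp_eq, Lp_eq, ← sum_add_distrib]
  exact sum_congr rfl fun i _ => by rw [Pi.add_apply, mul_add]

theorem sl_add' (ω : Finset (Option (Fin k))) (x y : Option (Fin k) → ZMod N × ZMod N) :
    sl ω (x + y) = sl ω x + sl ω y := by
  funext i
  show (if i ∈ ω then (x i + y i).2 else (x i + y i).1) =
    (if i ∈ ω then (x i).2 else (x i).1) + (if i ∈ ω then (y i).2 else (y i).1)
  split_ifs <;> rfl

/-- the form of `(j, ω)` as a homomorphism -/
def frp (t : Fin k × Finset (Option (Fin k))) : (Option (Fin k) → ZMod N × ZMod N) →+ ZMod N where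
  toFun y := Lp t.1 (sl t.2 y)
  map_zero' := by
    have h : sl t.2 (0 : Option (Fin k) → ZMod N × ZMod N) = 0 := by
      funext i
      unfold sl
      split_ifs <;> rfl
    rw [h, Lp_eq]
    exact sum_eq_zero fun i _ => by rw [Pi.zero_apply, mul_zero]
  map_add' y y' := by rw [sl_add', Lp_add]

theorem Lp_single (i : Option (Fin k)) (j : Fin k) (a : ZMod N) :
    Lp j (Pi.single i a) = cf j i * a := by
  rw [Lp_eq, sum_eq_single i]
  · rw [Pi.single_eq_same]
  · intro b _ hb
    rw [Pi.single_eq_of_ne hb, mul_zero]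
  · intro h
    exact absurd (mem_univ _) h

theorem sl_single' (ω : Finset (Option (Fin k))) (i : Option (Fin k)) (a : ZMod N × ZMod N) :
    sl ω (Pi.single i a) = Pi.single i (if i ∈ ω then a.2 else a.1) := by
  funext l
  unfold sl
  by_cases h : l = i
  · subst h
    simp only [Pi.single_eq_same]
  · simp only [Pi.single_eq_of_ne h]
    split_ifs <;> rfl

theorem frp_single (t : Fin k × Finset (Option (Fin k))) (i : Option (Fin k)) (a : ZMod N × ZMod N) :
    frp t (Pi.single i a) = cf t.1 i * (if i ∈ t.2 then a.2 else a.1) := by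
  change Lp t.1 (sl t.2 (Pi.single i a)) = _
  rw [sl_single', Lp_single]

theorem frp_sep (hkN : k < N) [Fact N.Prime] (t t' : Fin k × Finset (Option (Fin k))) (ht : some t.1 ∉ t.2)
    (ht' : some t'.1 ∉ t'.2) (h : t ≠ t') :
    ∃ v : Option (Fin k) → ZMod N × ZMod N, frp t v ≠ frp t' v := by
  by_cases h1 : t.1 = t'.1
  · have h2 : t.2 ≠ t'.2 := fun h' => h (Prod.ext h1 h')
    have h3 : ∃ i, (i ∈ t.2 ∧ i ∉ t'.2) ∨ (i ∉ t.2 ∧ i ∈ t'.2) := by
      by_contra hc
      push Not at hc
      apply h2
      ext i
      have := hc i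
      constructor
      · intro hi
        exact this.1 hi
      · intro hi
        by_contra hi'
        exact this.2 hi' hi
    obtain ⟨i, hi⟩ := h3
    refine ⟨Pi.single i (0, 1), ?_⟩
    rw [frp_single, frp_single]
    rcases hi with ⟨hi, hi'⟩ | ⟨hi, hi'⟩
    · rw [if_pos hi, if_neg hi', mul_one, mul_zero]
      exact cf_ne hkN _ _ (fun h => ht (h ▸ hi))
    · rw [if_neg hi, if_pos hi', mul_one, mul_zero]
      exact (cf_ne hkN t'.1 i (fun h => ht' (h ▸ hi'))).symm
  · refine ⟨Pi.single (some t.1) (1, 1), ?_⟩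
    rw [frp_single, frp_single]
    simp only [ite_self, mul_one, cf_self]
    exact (cf_ne hkN t'.1 (some t.1) (fun h => h1 (Option.some_injective _ h))).symm

theorem frp_ne [Fact N.Prime] (t : Fin k × Finset (Option (Fin k))) :
    ∃ v : Option (Fin k) → ZMod N × ZMod N, frp t v ≠ 0 := by
  refine ⟨Pi.single none (1, 1), ?_⟩
  rw [frp_single]
  simp only [ite_self, mul_one]
  exact one_ne_zero

end forms

/-- the number of the pairs of a form and a set of coordinates -/
def nf (k : ℕ) : ℕ := k * 2 ^ (k + 1)

open Classical in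
/-- the linear forms condition in most windows -/
theorem lfm {k : ℕ} (hk : 1 ≤ k) {ν : ℕ → ℝ} {M : ℕ} {η E : ℝ} {A X N : ℕ} [NeZero N]
    [Fact N.Prime] (hkN : k < N) (h : Cor ν M E A X N)
    (hX : 1 ≤ X) (hM : 2 * nf k ≤ M) (hη : 0 < η)
    (h1 : 3 * E ≤ η ^ 2) (h2 : 2 ^ nf k * (3 * E) ≤ η ^ 3) :
    ∑ x ∈ Ioc A (A + X), |av (nuX ν N x) - 1| ≤ η * X ∧
    (((Ioc A (A + X)).filter (fun x => ¬ LFp k N (nuX ν N x) η)).card : ℝ) ≤ η * X := by
  have hX' : (0 : ℝ) < X := by exact_mod_cast hX
  have hcard : (Ioc A (A + X)).card = X := by rw [Nat.card_Ioc]; omega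
  have hk1 : 1 ≤ nf k := Nat.mul_pos (by omega) (by positivity)
  constructor
  · have h3 := lemC h hX (I := Unit) (by rw [Fintype.card_unit]; omega)
      (fun _ => AddMonoidHom.id (ZMod N)) (fun i j hij => absurd (Subsingleton.elim i j) hij)
      (fun _ => ⟨1, by simp⟩)
    have h4 : ∀ x, av (fun y : ZMod N => ∏ i : Unit, nuX ν N x (AddMonoidHom.id (ZMod N) y)) =
        av (nuX ν N x) := by
      intro x
      congr 1
      funext y
      simp
    simp_rw [h4] at h3
    have h5 : ∀ x ∈ Ioc A (A + X), |av (nuX ν N x) - 1| ≤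
        η / 2 + (av (nuX ν N x) - 1) ^ 2 / (2 * η) := by
      intro x _
      set y := av (nuX ν N x) - 1
      have h6 : η / 2 + y ^ 2 / (2 * η) = (η ^ 2 + y ^ 2) / (2 * η) := by
        field_simp
      rw [h6, le_div_iff₀ (by positivity)]
      nlinarith [sq_nonneg (|y| - η), sq_abs y]
    refine (sum_le_sum h5).trans ?_
    rw [sum_add_distrib, sum_const, hcard, nsmul_eq_mul, ← sum_div]
    have h6 : (∑ x ∈ Ioc A (A + X), (av (nuX ν N x) - 1) ^ 2) / (2 * η) ≤ η / 2 * X := by
      rw [div_le_iff₀ (by positivity)]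
      calc ∑ x ∈ Ioc A (A + X), (av (nuX ν N x) - 1) ^ 2
          ≤ 3 * E * X := h3
        _ ≤ η ^ 2 * X := mul_le_mul_of_nonneg_right h1 hX'.le
        _ = η / 2 * X * (2 * η) := by ring
    linarith
  · set TT : Finset (Finset (Fin k × Finset (Option (Fin k)))) :=
      univ.filter (fun T => ∀ t ∈ T, some t.1 ∉ t.2) with hTT
    set bad : Finset (Fin k × Finset (Option (Fin k))) → Finset ℕ := fun T =>
      (Ioc A (A + X)).filter (fun x => η < |av (fun y : Option (Fin k) → ZMod N × ZMod N =>
        ∏ t ∈ T, nuX ν N x (Lp t.1 (sl t.2 y))) - 1|) with hbad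
    have hsub : (Ioc A (A + X)).filter (fun x => ¬ LFp k N (nuX ν N x) η) ⊆
        TT.biUnion bad := by
      intro x hx
      rw [mem_filter] at hx
      have h3 := hx.2
      unfold LFp LF at h3
      push Not at h3
      obtain ⟨T, hT, h4⟩ := h3
      -- the forms of `T`
      set T' : Finset (Fin k × Finset (Option (Fin k))) :=
        univ.filter (fun t => (some t.1, t.2) ∈ T) with hT'
      rw [mem_biUnion]
      refine ⟨T', ?_, ?_⟩
      · rw [hTT, mem_filter]
        refine ⟨mem_univ _, fun t ht => ?_⟩
        rw [hT', mem_filter] at ht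
        exact hT _ ht.2
      · rw [hbad, mem_filter]
        refine ⟨hx.1, ?_⟩
        have h5 : (fun y : Option (Fin k) → ZMod N × ZMod N =>
            ∏ t ∈ T', nuX ν N x (Lp t.1 (sl t.2 y))) =
            fun y => ∏ t ∈ T, wt (k := k) (fun _ => nuX ν N x) (fun _ => 1) t.1 (sl t.2 y) := by
          funext y
          rw [← prod_filter_mul_prod_filter_not T (fun t => t.1 ≠ none)]
          have h6 : ∏ t ∈ T.filter (fun t => ¬ t.1 ≠ none),
              wt (k := k) (fun _ => nuX ν N x) (fun _ => 1) t.1 (sl t.2 y) = 1 := by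
            apply prod_eq_one
            intro t ht
            rw [mem_filter, not_not] at ht
            rw [ht.2]
            rfl
          rw [h6, mul_one]
          symm
          refine prod_bij' (fun t (ht : t ∈ T.filter (fun t => t.1 ≠ none)) =>
            ((t.1.get (Option.ne_none_iff_isSome.1 (mem_filter.1 ht).2), t.2) :
              Fin k × Finset (Option (Fin k))))
            (fun t _ => ((some t.1, t.2) : Option (Fin k) × Finset (Option (Fin k)))) ?_ ?_ ?_ ?_ ?_
          · intro t ht
            rw [hT', mem_filter]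
            refine ⟨mem_univ _, ?_⟩
            simp only [Option.some_get]
            exact (mem_filter.1 ht).1
          · intro t ht
            rw [hT', mem_filter] at ht
            rw [mem_filter]
            exact ⟨ht.2, by simp⟩
          · intro t ht
            simp
          · intro t ht
            simp
          · intro t ht
            obtain ⟨t1, t2⟩ := t
            rcases t1 with _ | j
            · exact absurd rfl (mem_filter.1 ht).2
            · rfl
        rw [h5]
        exact h4
    have hone : ∀ T ∈ TT, ((bad T).card : ℝ) * 2 ^ nf k ≤ η * X := by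
      intro T hT
      rw [hTT, mem_filter] at hT
      have hcT : Fintype.card T ≤ nf k := by
        rw [Fintype.card_coe]
        refine (card_le_univ _).trans (le_of_eq ?_)
        rw [Fintype.card_prod, Fintype.card_fin, Fintype.card_finset, Fintype.card_option,
          Fintype.card_fin]
        rfl
      have h3 := lemC h hX (I := T) (by omega)
        (fun t => (frp (t : Fin k × Finset (Option (Fin k))) :
          (Option (Fin k) → ZMod N × ZMod N) →+ ZMod N))
        (fun t t' htt => frp_sep hkN t t' (hT.2 t t.2) (hT.2 t' t'.2)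
          (fun h => htt (Subtype.ext h)))
        (fun t => frp_ne t.1)
      have h4 : ∀ x, av (fun y : Option (Fin k) → ZMod N × ZMod N => ∏ t : T, nuX ν N x
          (frp (t : Fin k × Finset (Option (Fin k))) y)) =
          av (fun y : Option (Fin k) → ZMod N × ZMod N =>
            ∏ t ∈ T, nuX ν N x (Lp t.1 (sl t.2 y))) := by
        intro x
        congr 1
        funext y
        exact prod_coe_sort T (fun t => nuX ν N x (Lp t.1 (sl t.2 y)))
      simp_rw [h4] at h3
      have h5 : ((bad T).card : ℝ) * η ^ 2 ≤ 3 * E * X := by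
        refine le_trans ?_ h3
        calc ((bad T).card : ℝ) * η ^ 2 = ∑ x ∈ bad T, η ^ 2 := by
              rw [sum_const, nsmul_eq_mul]
          _ ≤ ∑ x ∈ bad T, (av (fun y : Option (Fin k) → ZMod N × ZMod N =>
            ∏ t ∈ T, nuX ν N x (Lp t.1 (sl t.2 y))) - 1) ^ 2 := by
              apply sum_le_sum
              intro x hx
              rw [hbad, mem_filter] at hx
              rw [← sq_abs (av _ - 1)]
              exact pow_le_pow_left₀ hη.le hx.2.le 2
          _ ≤ _ := sum_le_sum_of_subset_of_nonneg (filter_subset _ _)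
              (fun x _ _ => sq_nonneg _)
      have h6 : ((bad T).card : ℝ) * 2 ^ nf k * η ^ 2 ≤ η * X * η ^ 2 := by
        calc ((bad T).card : ℝ) * 2 ^ nf k * η ^ 2
            = 2 ^ nf k * (((bad T).card : ℝ) * η ^ 2) := by ring
          _ ≤ 2 ^ nf k * (3 * E * X) :=
              mul_le_mul_of_nonneg_left h5 (by positivity)
          _ = (2 ^ nf k * (3 * E)) * X := by ring
          _ ≤ η ^ 3 * X := mul_le_mul_of_nonneg_right h2 hX'.le
          _ = η * X * η ^ 2 := by ring
      exact le_of_mul_le_mul_right h6 (by positivity)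
    have hTTc : TT.card ≤ 2 ^ nf k := by
      refine (card_le_univ _).trans (le_of_eq ?_)
      rw [Fintype.card_finset, Fintype.card_prod, Fintype.card_fin, Fintype.card_finset,
        Fintype.card_option, Fintype.card_fin]
      rfl
    have h7 : (((Ioc A (A + X)).filter (fun x => ¬ LFp k N (nuX ν N x) η)).card : ℝ) ≤
        ∑ T ∈ TT, ((bad T).card : ℝ) := by
      have := (card_le_card hsub).trans card_biUnion_le
      exact_mod_cast this
    have h8 : (∑ T ∈ TT, ((bad T).card : ℝ)) * 2 ^ nf k ≤ η * X * 2 ^ nf k := by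
      rw [sum_mul]
      calc ∑ T ∈ TT, ((bad T).card : ℝ) * 2 ^ nf k ≤ ∑ T ∈ TT, η * X := sum_le_sum hone
        _ = TT.card * (η * X) := by rw [sum_const, nsmul_eq_mul]
        _ ≤ 2 ^ nf k * (η * X) := by
            apply mul_le_mul_of_nonneg_right _ (by positivity)
            exact_mod_cast hTTc
        _ = η * X * 2 ^ nf k := by ring
    exact h7.trans (le_of_mul_le_mul_right h8 (by positivity))

end Pool.Agent.X26.DP
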