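import Pool.Agent.X26.DP.CntB
import Pool.Agent.Y843.AC.HLA
import Pool.Agent.Y843.AC.Top

/-!
# All patterns in a common dilate: primes
-/

set_option autoImplicit false

namespace Pool.Agent.X26.DP

open Finset
open Pool.Agent.Y843.HS
open Pool.Agent.Y843.AC (OK Av)
open Pool.Agent.Y843.HG (V1 V1_bounds)

/-- all inputs together -/
theorem cntB_all (r k : ℕ) (κ δ : ℝ) (hk2 : 2 ≤ k) (hκ : 0 < κ) (hδ : 0 < δ) :
    ∃ c : ℝ, 0 < c ∧ ∃ B X₀ : ℕ, ∀ X A D : ℕ, X₀ ≤ X → Real.log X ^ B ≤ D → D ≤ X →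
    ∀ Z : ℕ → Finset ℕ, OK r κ X Z → ∀ S : Finset ℕ, S ⊆ Ioc A (A + X) → (∀ n ∈ S, Av κ X Z n) →
    δ * X * VV Z 0 ⌊(X : ℝ) ^ κ⌋₊ ≤ (S.card : ℝ) →
    c * D ≤ (((Icc 1 D).filter (fun d => ∀ F : Finset (Fin k), (∃ j ∈ F, (j : ℕ) = 0) →
      c * X * VV Z 0 ⌊(X : ℝ) ^ κ⌋₊ ^ F.card ≤ (ct S F d : ℝ))).card : ℝ) :=
  have hslf := Pool.Agent.Y317.PSP.slf Pool.Agent.Y674.PSP.cs
  cntB Pool.Agent.Y257.HS.s_TH cor_all Pool.Agent.Y79.HS.gav Pool.Agent.Y79.HS.den hslf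
    (Pool.Agent.Y814.PSP.cnt hslf) Pool.Agent.Y500.PSP.DMT Pool.Agent.Y46.PSP.phi
    Pool.Agent.Y46.PSP.var r k κ δ hk2 hκ hδ

/-- the class `0` modulo every prime -/
def Z0 (_ : ℕ) : Finset ℕ := {0}

theorem VV_Z0 (Y : ℕ) : VV Z0 0 Y = V1 Y := by
  unfold VV V1 Z0
  apply prod_congr rfl
  intro p _
  rw [card_singleton, Nat.cast_one]

theorem sqrt_facts : ∃ X₀ : ℕ, ∀ X : ℕ, X₀ ≤ X → 2 ≤ ⌊(X : ℝ) ^ (1 / 2 : ℝ)⌋₊ ∧ 2 ≤ X ∧
    Real.log X / 4 ≤ Real.log ⌊(X : ℝ) ^ (1 / 2 : ℝ)⌋₊ ∧ Real.log ⌊(X : ℝ) ^ (1 / 2 : ℝ)⌋₊ ≤ Real.log X ∧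
    1 ≤ Real.log X := by
  refine ⟨256, fun X hX => ?_⟩
  have hX0 : (256 : ℝ) ≤ X := by exact_mod_cast hX
  have h1 : (X : ℝ) ^ (1 / 2 : ℝ) = Real.sqrt X := (Real.sqrt_eq_rpow _).symm
  rw [h1]
  set q := Real.sqrt X with hq
  have hq2 : q * q = X := Real.mul_self_sqrt (by linarith)
  have hq0 : 0 ≤ q := Real.sqrt_nonneg _
  have hq16 : 16 ≤ q := by
    rw [hq]
    apply Real.le_sqrt_of_sq_le
    linarith
  have hf1 : q - 1 < ⌊q⌋₊ := Nat.sub_one_lt_floor q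
  have hf2 : (⌊q⌋₊ : ℝ) ≤ q := Nat.floor_le hq0
  have hf3 : 2 ≤ ⌊q⌋₊ := Nat.le_floor (by push_cast; linarith)
  have hf0 : (0 : ℝ) < ⌊q⌋₊ := by linarith
  refine ⟨hf3, by omega, ?_, ?_, ?_⟩
  · have h2 : (X : ℝ) ≤ (⌊q⌋₊ : ℝ) ^ 4 := by
      have h3 : q ≤ (⌊q⌋₊ : ℝ) ^ 2 := by nlinarith
      calc (X : ℝ) = q ^ 2 := by rw [← hq2]; ring
        _ ≤ ((⌊q⌋₊ : ℝ) ^ 2) ^ 2 := pow_le_pow_left₀ hq0 h3 2
        _ = _ := by ring
    have h3 := Real.log_le_log (by linarith) h2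
    rw [Real.log_pow] at h3
    push_cast at h3
    linarith
  · apply Real.log_le_log hf0
    nlinarith
  · have h2 : Real.exp 1 ≤ X := by linarith [Real.exp_one_lt_d9]
    rw [← Real.log_exp 1]
    exact Real.log_le_log (Real.exp_pos 1) h2

/-- dense sets of primes -/
theorem pri (k : ℕ) (hk : 2 ≤ k) {δ : ℝ} (hδ : 0 < δ) : ∃ c : ℝ, 0 < c ∧ ∃ B X₀ : ℕ, ∀ X y D : ℕ, X₀ ≤ X →
    Real.log X ^ B ≤ D → D ≤ X → ∀ A : Finset ℕ, A ⊆ Ioc y (y + X) → (∀ p ∈ A, p.Prime) →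
    δ * (X / Real.log X) ≤ A.card →
    c * D ≤ (((Icc 1 D).filter (fun d => ∀ F : Finset (Fin k), (∃ j ∈ F, (j : ℕ) = 0) →
      c * (X / Real.log X ^ F.card) ≤ (ct (A.filter (fun p => k < p)) F d : ℝ))).card : ℝ) := by
  classical
  obtain ⟨c₁, C₁, hc₁, hC₁, hV⟩ := V1_bounds
  obtain ⟨c₀, hc₀, B, X₁, h1⟩ := cntB_all 1 k (1 / 2) (δ / (8 * C₁)) hk (by norm_num) (by positivity)
  obtain ⟨X₂, h2⟩ := sqrt_facts
  obtain ⟨X₃, h3⟩ := log_pow_le 2 (max 1 ((2 / δ) ^ 2))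
  obtain ⟨cm, hcm⟩ : ∃ cm : ℝ, cm = min c₁ 1 := ⟨_, rfl⟩
  have hcm0 : 0 < cm := by rw [hcm]; exact lt_min hc₁ one_pos
  have hcm1 : cm ≤ 1 := by rw [hcm]; exact min_le_right _ _
  have hcm2 : cm ≤ c₁ := by rw [hcm]; exact min_le_left _ _
  refine ⟨c₀ * cm ^ k, by positivity, B, max (max X₁ X₂) (max X₃ (k ^ 2)), ?_⟩
  intro X y D hX hBD hDX A hA hAp hAc
  have hX1 : X₁ ≤ X := (le_max_left _ _).trans ((le_max_left _ _).trans hX)
  have hX2 : X₂ ≤ X := (le_max_right _ _).trans ((le_max_left _ _).trans hX)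
  have hX3 : X₃ ≤ X := (le_max_left _ _).trans ((le_max_right _ _).trans hX)
  have hX4 : k ^ 2 ≤ X := (le_max_right _ _).trans ((le_max_right _ _).trans hX)
  obtain ⟨e1, e2, e3, e4, e5⟩ := h2 X hX2
  have hX0 : (0 : ℝ) < X := by exact_mod_cast (show 0 < X by omega)
  set Y := ⌊(X : ℝ) ^ (1 / 2 : ℝ)⌋₊ with hY
  have hlX : 0 < Real.log X := by linarith
  have hlY : 0 < Real.log Y := by linarith
  obtain ⟨v1, v2⟩ := hV Y e1
  have hkY : k ≤ Y := by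
    apply Nat.le_floor
    rw [← Real.sqrt_eq_rpow]
    apply Real.le_sqrt_of_sq_le
    exact_mod_cast hX4
  -- the set
  set S : Finset ℕ := A.filter (fun p : ℕ => (X : ℝ) ^ (1 / 2 : ℝ) < (p : ℝ)) with hS
  have hSc : δ / (8 * C₁) * X * VV Z0 0 Y ≤ S.card := by
    have a1 : A.card ≤ S.card + Y := by
      have a2 : A ⊆ S ∪ Icc 1 Y := by
        intro p hp
        rw [mem_union, hS, mem_filter, mem_Icc]
        by_cases hp2 : (X : ℝ) ^ (1 / 2 : ℝ) < p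
        · exact Or.inl ⟨hp, hp2⟩
        · exact Or.inr ⟨(hAp p hp).pos, Nat.le_floor (not_lt.1 hp2)⟩
      refine (card_le_card a2).trans ((card_union_le _ _).trans ?_)
      rw [Nat.card_Icc, Nat.add_sub_cancel]
    have a1' : (A.card : ℝ) ≤ S.card + Y := by exact_mod_cast a1
    have a3 : (Y : ℝ) ≤ δ / 2 * (X / Real.log X) := by
      have a4 : (Y : ℝ) ≤ (X : ℝ) ^ (1 / 2 : ℝ) := Nat.floor_le (by positivity)
      rw [← Real.sqrt_eq_rpow] at a4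
      have a5 := h3 X hX3
      have a6 : (2 / δ) ^ 2 * Real.log X ^ 2 ≤ X :=
        (mul_le_mul_of_nonneg_right (le_max_right _ _) (by positivity)).trans a5
      have a7 : 2 / δ * Real.log X ≤ Real.sqrt X := by
        apply Real.le_sqrt_of_sq_le
        rw [mul_pow]
        exact a6
      have a8 : Real.sqrt X * Real.sqrt X = X := Real.mul_self_sqrt hX0.le
      have a9 : Real.sqrt X ≤ δ / 2 * (X / Real.log X) := by
        rw [div_mul_eq_mul_div, div_le_iff₀ hδ] at a7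
        rw [← mul_div_assoc, le_div_iff₀ hlX]
        have b1 : 2 * Real.log X * Real.sqrt X ≤ (Real.sqrt X * δ) * Real.sqrt X :=
          mul_le_mul_of_nonneg_right a7 (Real.sqrt_nonneg _)
        have b2 : (Real.sqrt X * δ) * Real.sqrt X = δ * X := by
          rw [mul_right_comm, a8, mul_comm]
        linarith
      exact a4.trans a9
    rw [VV_Z0]
    have a10 : V1 Y ≤ 4 * C₁ / Real.log X := by
      refine v2.trans ?_
      rw [div_le_div_iff₀ hlY hlX]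
      nlinarith
    calc δ / (8 * C₁) * X * V1 Y ≤ δ / (8 * C₁) * X * (4 * C₁ / Real.log X) :=
          mul_le_mul_of_nonneg_left a10 (by positivity)
      _ = δ / 2 * (X / Real.log X) := by
          field_simp
          ring
      _ ≤ S.card := by linarith
  have hOK : OK 1 (1 / 2) X Z0 := by
    intro p hp _
    unfold Z0
    rw [card_singleton]
    refine ⟨le_rfl, hp.one_lt, fun c hc => ?_⟩
    rw [mem_singleton.1 hc]
    exact hp.pos
  have hAv : ∀ n ∈ S, Av (1 / 2) X Z0 n := by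
    intro n hn p hp hpX hcon
    rw [hS, mem_filter] at hn
    unfold Z0 at hcon
    rw [mem_singleton] at hcon
    have h4 := (Nat.prime_dvd_prime_iff_eq hp (hAp n hn.1)).1 (Nat.dvd_of_mod_eq_zero hcon)
    rw [h4] at hpX
    linarith [hn.2]
  have h4 := h1 X y D hX1 hBD hDX Z0 hOK S ((filter_subset _ _).trans hA) hAv hSc
  have hcD : c₀ * cm ^ k * D ≤ c₀ * D := by
    apply mul_le_mul_of_nonneg_right _ (Nat.cast_nonneg _)
    exact mul_le_of_le_one_right hc₀.le (pow_le_one₀ hcm0.le hcm1)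
  refine (hcD.trans h4).trans ?_
  apply Nat.cast_le.2
  apply card_le_card
  intro d hd
  rw [mem_filter] at hd ⊢
  refine ⟨hd.1, fun F hF => ?_⟩
  have h5 := hd.2 F hF
  rw [VV_Z0] at h5
  have h6 : (ct S F d : ℝ) ≤ (ct (A.filter (fun p => k < p)) F d : ℝ) := by
    have hsub : S ⊆ A.filter (fun p => k < p) := by
      intro p hp
      rw [hS, mem_filter] at hp
      rw [mem_filter]
      refine ⟨hp.1, ?_⟩
      have h7 : (Y : ℝ) ≤ (X : ℝ) ^ (1 / 2 : ℝ) := Nat.floor_le (by positivity)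
      have h8 : (k : ℝ) ≤ Y := by exact_mod_cast hkY
      have h9 : (k : ℝ) < p := by linarith [hp.2]
      exact_mod_cast h9
    unfold ct
    apply Nat.cast_le.2
    apply card_le_card
    intro n hn
    rw [mem_filter] at hn ⊢
    exact ⟨hsub hn.1, fun j hj => hsub (hn.2 j hj)⟩
  refine le_trans ?_ (h5.trans h6)
  have h7 : cm / Real.log X ≤ V1 Y := by
    refine le_trans ?_ v1
    exact div_le_div₀ hc₁.le hcm2 hlY e4
  have h8 : cm ^ k / Real.log X ^ F.card ≤ V1 Y ^ F.card := by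
    have h9 : cm ^ k ≤ cm ^ F.card := pow_le_pow_of_le_one hcm0.le hcm1 (by
      have := card_le_univ F
      rwa [Fintype.card_fin] at this)
    calc cm ^ k / Real.log X ^ F.card ≤ cm ^ F.card / Real.log X ^ F.card :=
          div_le_div_of_nonneg_right h9 (by positivity)
      _ = (cm / Real.log X) ^ F.card := (div_pow _ _ _).symm
      _ ≤ _ := pow_le_pow_left₀ (by positivity) h7 _
  calc c₀ * cm ^ k * (X / Real.log X ^ F.card) = c₀ * X * (cm ^ k / Real.log X ^ F.card) := by ring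
    _ ≤ c₀ * X * V1 Y ^ F.card := mul_le_mul_of_nonneg_left h8 (by positivity)

end Pool.Agent.X26.DP
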