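import Pool.Agent.Y727.PSP.Rs
import Pool.Agent.Y79.PSP.MK

/-!
# All patterns in a common dilate: the relative theorem

Let `f ≤ ν` on `ZMod N`, with a linear forms condition for `ν` and `δ ≤ av f`. For a positive proportion of the
`d` the averages over `a` of the products of the `f (a + j d)`, `j ∈ F`, are bounded from below for all
`F ⊆ {0, …, k - 1}` at once.
-/

set_option autoImplicit false

open Finset

namespace Pool.Agent.X26.DP

open Pool.Agent.H602R3.DHJ
open Pool.Agent.Y727.PSP
open Pool.Agent.Y79.PSP.MK (cast_ne)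

variable {k N : ℕ}

/-- the linear form `x_none + ∑ (i - j) x_i`; it does not depend on `x_j` -/
def Lp (j : Fin k) (x : Option (Fin k) → ZMod N) : ZMod N :=
  x none + ∑ i : Fin k, (((i : ℕ) : ZMod N) - ((j : ℕ) : ZMod N)) * x (some i)

/-- the weights: `f j` at the form `Lp j`, `u` at the form `- ∑ x_i` -/
def wt (f : Fin k → ZMod N → ℝ) (u : ZMod N → ℝ) (j : Option (Fin k))
    (x : Option (Fin k) → ZMod N) : ℝ :=
  match j with
  | none => u (-∑ i : Fin k, x (some i))
  | some j => f j (Lp j x)

/-- the linear forms condition -/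
def LFp (k N : ℕ) [NeZero N] (ν : ZMod N → ℝ) (η : ℝ) : Prop :=
  LF (wt (k := k) (fun _ => ν) (fun _ => 1)) η

theorem Ind_wt (f : Fin k → ZMod N → ℝ) (u : ZMod N → ℝ) (j : Option (Fin k)) : Ind j (wt f u j) := by
  intro x v
  rcases j with _ | j
  · show u _ = u _
    have e : ∀ i : Fin k, Function.update x none v (some i) = x (some i) := fun i =>
      Function.update_of_ne (by simp) _ _
    simp only [e]
  · show f j _ = f j _
    congr 1
    unfold Lp
    rw [Function.update_of_ne (by simp)]
    congr 1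
    apply sum_congr rfl
    intro i _
    by_cases hi : i = j
    · subst hi
      simp
    · rw [Function.update_of_ne (by simpa using hi)]

/-- the weights outside of `F` may be replaced by `1` -/
theorem LF_sub [NeZero N] {ν : ZMod N → ℝ} {η : ℝ} (h : LFp k N ν η) (F : Finset (Fin k)) :
    LF (wt (k := k) (fun j => if j ∈ F then ν else fun _ => 1) (fun _ => 1)) η := by
  classical
  intro T hT
  have h1 := h (T.filter (fun t => ∃ j ∈ F, t.1 = some j)) (fun t ht => hT t (mem_filter.1 ht).1)
  refine le_trans (le_of_eq ?_) h1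
  congr 3
  funext y
  rw [prod_filter]
  apply prod_congr rfl
  intro t _
  rcases ht : t.1 with _ | j
  · rw [if_neg (by simp)]
    rfl
  · by_cases hj : j ∈ F
    · rw [if_pos ⟨j, hj, rfl⟩]
      show (if j ∈ F then ν else fun _ => 1) _ = ν _
      rw [if_pos hj]
    · rw [if_neg (by simpa using hj)]
      show (if j ∈ F then ν else fun _ => 1) _ = 1
      rw [if_neg hj]

/-! ### Change of coordinates -/

/-- scaling of the coordinates along a bijection -/
def scl {J J' : Type} (e : J ≃ J') (γ : J → (ZMod N)ˣ) : (J' → ZMod N) ≃ (J → ZMod N) where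
  toFun x := fun t => γ t * x (e t)
  invFun y := fun l => ((γ (e.symm l))⁻¹ : (ZMod N)ˣ) * y (e.symm l)
  left_inv x := by
    funext l
    simp
  right_inv y := by
    funext t
    simp

theorem cut_transfer [NeZero N] {J J' : Type} [Fintype J] [DecidableEq J] [Fintype J'] [DecidableEq J']
    (e : J ≃ J') (γ : J → (ZMod N)ˣ) (j : J) (H : (J → ZMod N) → ℝ) {ε : ℝ}
    (h : Cut (e j) (fun x : J' → ZMod N => H (scl e γ x)) ε) : Cut j H ε := by
  intro u hu hu1
  have h1 := h (fun l x => u (e.symm l) (scl e γ x)) (by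
    intro l x v
    have h2 : scl e γ (Function.update x l v) =
        Function.update (scl e γ x) (e.symm l) (γ (e.symm l) * v) := by
      funext t
      show γ t * (Function.update x l v) (e t) = _
      by_cases ht : t = e.symm l
      · subst ht
        rw [Function.update_self, Equiv.apply_symm_apply, Function.update_self]
      · rw [Function.update_of_ne ht, Function.update_of_ne (fun h => ht (by rw [← h]; simp))]
        rfl
    show u (e.symm l) (scl e γ (Function.update x l v)) = _
    rw [h2]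
    exact hu (e.symm l) _ _) (fun l x => hu1 _ _)
  refine le_trans (le_of_eq ?_) h1
  congr 1
  rw [← av_equiv (scl e γ)]
  congr 1
  funext x
  congr 1
  rw [← prod_equiv e (s := univ.erase j) (t := univ.erase (e j))
    (f := fun t => u t (scl e γ x)) (g := fun l => u (e.symm l) (scl e γ x))]
  · intro t
    simp
  · intro t _
    simp

/-- the bijection of the coordinates -/
theorem ex_equiv (j : Fin k) : ∃ e : Option (Fin k) ≃ Fin (k + 1), e (some j) = 0 := by
  have e0 : Option (Fin k) ≃ Fin (k + 1) := Fintype.equivOfCardEq (by simp)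
  exact ⟨e0.trans (Equiv.swap (e0 (some j)) 0), by simp⟩

/-- the coefficient of `Lp j` -/
def cf (j : Fin k) (t : Option (Fin k)) : ZMod N :=
  match t with
  | none => 1
  | some i => ((i : ℕ) : ZMod N) - ((j : ℕ) : ZMod N)

theorem Lp_eq (j : Fin k) (x : Option (Fin k) → ZMod N) : Lp j x = ∑ t, cf j t * x t := by
  rw [Fintype.sum_option]
  unfold Lp cf
  rw [one_mul]

theorem cf_self (j : Fin k) : (cf j (some j) : ZMod N) = 0 := sub_self _

theorem cf_ne (hkN : k < N) [Fact N.Prime] (j : Fin k) (t : Option (Fin k)) (ht : t ≠ some j) :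
    (cf j t : ZMod N) ≠ 0 := by
  rcases t with _ | i
  · exact one_ne_zero
  · exact cast_ne hkN.le (fun h => ht (by rw [h]))

theorem val_ne (hkN : k < N) (l : Fin (k + 1)) (hl : l ≠ 0) : ((l : ℕ) : ZMod N) ≠ 0 := by
  intro h
  rw [ZMod.natCast_eq_zero_iff] at h
  have h1 : 0 < (l : ℕ) := Nat.pos_of_ne_zero fun h => hl (Fin.ext h)
  have := Nat.le_of_dvd h1 h
  have := l.2
  omega

/-- the forms of the two systems agree after a scaling -/
theorem ex_scale (hkN : k < N) [Fact N.Prime] (j : Fin k) :
    ∃ (e : Option (Fin k) ≃ Fin (k + 1)) (γ : Option (Fin k) → (ZMod N)ˣ), e (some j) = 0 ∧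
      ∀ x : Fin (k + 1) → ZMod N, Lp j (scl e γ x) = Lf 0 x := by
  obtain ⟨e, he⟩ := ex_equiv j
  have hγ : ∀ t : Option (Fin k), ∃ g : (ZMod N)ˣ, cf j t * (g : ZMod N) = ((e t : ℕ) : ZMod N) := by
    intro t
    by_cases ht : t = some j
    · refine ⟨1, ?_⟩
      rw [ht, cf_self, he]
      simp
    · have h1 : ((e t : ℕ) : ZMod N) ≠ 0 := val_ne hkN _ (fun h => ht (e.injective (h.trans he.symm)))
      have h2 := cf_ne hkN j t ht
      refine ⟨Units.mk0 (((e t : ℕ) : ZMod N) / cf j t) (div_ne_zero h1 h2), ?_⟩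
      rw [Units.val_mk0, mul_div_cancel₀ _ h2]
  choose γ hγ using hγ
  refine ⟨e, γ, he, fun x => ?_⟩
  rw [Lp_eq]
  unfold Lf
  rw [← Equiv.sum_comp e]
  apply sum_congr rfl
  intro t _
  show cf j t * ((γ t : ZMod N) * x (e t)) = _
  rw [← mul_assoc, hγ, Fin.val_zero, Nat.cast_zero, sub_zero]

theorem cut_some (hkN : k < N) [Fact N.Prime] [NeZero N] (j : Fin k) {h : ZMod N → ℝ} {ε : ℝ}
    (hc : Cut (0 : Fin (k + 1)) (fun x => h (Lf 0 x)) ε) :
    Cut (some j) (fun x : Option (Fin k) → ZMod N => h (Lp j x)) ε := by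
  obtain ⟨e, γ, he, hx⟩ := ex_scale (N := N) hkN j
  apply cut_transfer e γ
  rw [he]
  simp only [hx]
  exact hc

theorem cut_zero (hkN : k < N) [Fact N.Prime] [NeZero N] (j : Fin k) {h : ZMod N → ℝ} {ε : ℝ}
    (hc : Cut (some j) (fun x : Option (Fin k) → ZMod N => h (Lp j x)) ε) :
    Cut (0 : Fin (k + 1)) (fun x => h (Lf 0 x)) ε := by
  obtain ⟨e, γ, he, hx⟩ := ex_scale (N := N) hkN j
  apply cut_transfer e.symm (fun l => (γ (e.symm l))⁻¹)
  rw [← he, Equiv.symm_apply_apply]
  have h1 : ∀ y : Option (Fin k) → ZMod N, Lf 0 (scl e.symm (fun l => (γ (e.symm l))⁻¹) y) = Lp j y := by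
    intro y
    rw [← hx]
    congr 1
    funext t
    show (γ t : ZMod N) * ((((γ (e.symm (e t)))⁻¹ : (ZMod N)ˣ) : ZMod N) * y (e.symm (e t))) = y t
    rw [Equiv.symm_apply_apply, ← mul_assoc, Units.mul_inv, one_mul]
  simp only [he, h1]
  exact hc

/-! ### The parametrisation -/

/-- the homomorphism `x ↦ (x_none + ∑ i x_i, -∑ x_i)` -/
def Tp (k N : ℕ) : (Option (Fin k) → ZMod N) →+ ZMod N × ZMod N where
  toFun x := (x none + ∑ i : Fin k, ((i : ℕ) : ZMod N) * x (some i), -∑ i : Fin k, x (some i))
  map_zero' := by simp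
  map_add' x y := by
    simp only [Pi.add_apply, mul_add, sum_add_distrib, neg_add, Prod.mk_add_mk]
    rw [Prod.mk.injEq]
    exact ⟨by ring, rfl⟩

theorem Tp_surj (hk : 1 ≤ k) : Function.Surjective (Tp k N) := by
  intro p
  obtain ⟨a, d⟩ := p
  refine ⟨fun t => match t with
    | none => a
    | some i => if i = ⟨0, by omega⟩ then -d else 0, ?_⟩
  show ((a + ∑ i : Fin k, ((i : ℕ) : ZMod N) * (if i = ⟨0, by omega⟩ then -d else 0),
    -∑ i : Fin k, (if i = ⟨0, by omega⟩ then -d else (0 : ZMod N))) : ZMod N × ZMod N) = _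
  rw [Prod.mk.injEq]
  constructor
  · rw [sum_eq_zero, add_zero]
    intro i _
    by_cases hi : i = ⟨0, by omega⟩
    · rw [hi]
      simp
    · rw [if_neg hi, mul_zero]
  · rw [sum_ite_eq' univ (⟨0, by omega⟩ : Fin k) (fun _ => -d), if_pos (mem_univ _), neg_neg]

theorem Lp_Tp (j : Fin k) (x : Option (Fin k) → ZMod N) :
    Lp j x = (Tp k N x).1 + ((j : ℕ) : ZMod N) * (Tp k N x).2 := by
  show _ = (x none + ∑ i : Fin k, ((i : ℕ) : ZMod N) * x (some i)) +
    ((j : ℕ) : ZMod N) * (-∑ i : Fin k, x (some i))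
  unfold Lp
  rw [mul_neg, mul_sum, add_assoc, ← sub_eq_add_neg, ← sum_sub_distrib]
  congr 1
  exact sum_congr rfl fun i _ => by ring

theorem av_param [NeZero N] (hk : 1 ≤ k) (f : Fin k → ZMod N → ℝ) (u : ZMod N → ℝ) :
    av (fun x : Option (Fin k) → ZMod N => ∏ t, wt f u t x) =
      av (fun d : ZMod N => u d * av (fun a : ZMod N => ∏ j : Fin k, f j (a + ((j : ℕ) : ZMod N) * d))) := by
  have h1 := av_hom (Tp k N) (Tp_surj hk)
    (fun p : ZMod N × ZMod N => u p.2 * ∏ j : Fin k, f j (p.1 + ((j : ℕ) : ZMod N) * p.2))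
  have h2 : (fun x : Option (Fin k) → ZMod N => ∏ t, wt f u t x) = fun x =>
      (fun p : ZMod N × ZMod N => u p.2 * ∏ j : Fin k, f j (p.1 + ((j : ℕ) : ZMod N) * p.2)) (Tp k N x) := by
    funext x
    rw [Fintype.prod_option]
    show u _ * ∏ j : Fin k, f j (Lp j x) = u _ * _
    congr 1
    exact prod_congr rfl fun j _ => by rw [Lp_Tp]
  rw [h2, h1, ← av_equiv (Equiv.prodComm (ZMod N) (ZMod N)), av_prod]
  congr 1
  funext d
  rw [← av_mul]
  rfl

/-- the average over the pattern `F` -/
noncomputable def TF (k N : ℕ) [NeZero N] (f : ZMod N → ℝ) (F : Finset (Fin k)) (d : ZMod N) : ℝ :=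
  av (fun a : ZMod N => ∏ j ∈ F, f (a + ((j : ℕ) : ZMod N) * d))

theorem av_param' [NeZero N] (hk : 1 ≤ k) (f : ZMod N → ℝ) (F : Finset (Fin k)) (u : ZMod N → ℝ) :
    av (fun x : Option (Fin k) → ZMod N => ∏ t, wt (fun j => if j ∈ F then f else fun _ => 1) u t x) =
      av (fun d : ZMod N => u d * TF k N f F d) := by
  rw [av_param hk]
  congr 1
  funext d
  congr 1
  unfold TF
  congr 1
  funext a
  rw [← prod_filter_mul_prod_filter_not univ (fun j => j ∈ F)]
  have h1 : ∏ j ∈ univ.filter (fun j => ¬ j ∈ F), (if j ∈ F then f else fun _ => 1)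
      (a + ((j : ℕ) : ZMod N) * d) = 1 := by
    apply prod_eq_one
    intro j hj
    rw [if_neg (mem_filter.1 hj).2]
  rw [h1, mul_one]
  have h2 : univ.filter (fun j => j ∈ F) = F := by
    ext j
    simp
  rw [h2]
  apply prod_congr rfl
  intro j hj
  rw [if_pos hj]

/-! ### The relative theorem -/

theorem rsp (hSLF : S_SLF) (hCNT : S_CNT) (hDMT : S_DMT) (hPHI : S_PHI) (hVAR : S_VAR) (k : ℕ) (hk : 1 ≤ k)
    {δ : ℝ} (hδ : 0 < δ) : ∃ c η : ℝ, 0 < c ∧ 0 < η ∧ ∀ (N : ℕ) [NeZero N], N.Prime → k < N →
      ∀ ν f : ZMod N → ℝ, (∀ a, 0 ≤ f a ∧ f a ≤ ν a) → LFp k N ν η → δ ≤ av f →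
      c * N ≤ (((univ : Finset (ZMod N)).filter (fun d => ∀ F : Finset (Fin k), c ≤ TF k N f F d)).card : ℝ) := by
  classical
  obtain ⟨c1, hc1, hV⟩ := hVAR k (δ / 2) (by positivity)
  obtain ⟨c0, hc0def⟩ : ∃ c0 : ℝ, c0 = min c1 1 := ⟨_, rfl⟩
  have hc0 : 0 < c0 := by rw [hc0def]; exact lt_min hc1 one_pos
  have hc01 : c0 ≤ c1 := by rw [hc0def]; exact min_le_left _ _
  obtain ⟨ε, hε⟩ : ∃ ε : ℝ, ε = c0 ^ 2 / (16 * 2 ^ k) := ⟨_, rfl⟩
  have hε0 : 0 < ε := by rw [hε]; positivity
  obtain ⟨η1, hη1, hC⟩ := hCNT (Option (Fin k)) ε hε0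
  obtain ⟨ε', hε', hD⟩ := hDMT (min η1 (δ / 2)) (by positivity)
  obtain ⟨η2, hη2, hS⟩ := hSLF (Option (Fin k)) ε' hε'
  refine ⟨c0 / 4, min η1 η2, by positivity, by positivity, ?_⟩
  intro N _ hN hkN ν f hf hLF hδf
  have : Fact N.Prime := ⟨hN⟩
  have hN0 : (0 : ℝ) < N := by exact_mod_cast hN.pos
  obtain ⟨p1, p2, p3, p4, p5, p6⟩ := hPHI k N hk hN hkN
  have hν0 : ∀ a, 0 ≤ ν a := fun a => (hf a).1.trans (hf a).2
  have hLF1 : LFp k N ν η1 := fun T hT => (hLF T hT).trans (min_le_left _ _)
  have hLF2 : LFp k N ν η2 := fun T hT => (hLF T hT).trans (min_le_right _ _)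
  obtain ⟨j0⟩ : Nonempty (Fin k) := ⟨⟨0, by omega⟩⟩
  -- the majorant is pseudorandom
  have h1 : Cut (some j0) (fun x : Option (Fin k) → ZMod N => ν (Lp j0 x) - 1) ε' := by
    intro u hu hu1
    have h2 := hS (ZMod N) (wt (k := k) (fun _ => ν) (fun _ => 1)) (by
        intro j x
        rcases j with _ | j
        · exact zero_le_one
        · exact hν0 _) (Ind_wt _ _) hLF2 (some j0)
      (fun c i => if c = true then fun _ => 1 else u i) (fun _ _ => false)
      (fun c i => by
        by_cases hc : c = true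
        · rw [if_pos hc]
          intro x v
          rfl
        · rw [if_neg hc]
          exact hu i)
      (fun c i x => by
        by_cases hc : c = true
        · simp [hc]
        · simpa [hc] using hu1 i x)
    refine le_trans (le_of_eq ?_) h2
    have h3 := av_sl (J := Option (Fin k)) (V := ZMod N)
      (fun x => (ν (Lp j0 x) - 1) * ∏ i ∈ univ.erase (some j0), u i x)
    rw [← h3]
    congr 2
    funext y
    congr 1
    apply prod_congr rfl
    intro i _
    rw [if_neg Bool.false_ne_true, if_pos rfl, mul_one]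
  have h1' := cut_zero (h := fun a => ν a - 1) hkN j0 h1
  have h2 := p6 (fun a => ν a - 1) ε' h1'
  obtain ⟨g, hg, hg2⟩ := hD (ZMod N) (Phi k N) p1 p2 p3 p4 ν f hf h2
  have h3 := p5 (fun a => f a - g a) _ hg2 0
  have h4 : δ / 2 ≤ av g := by
    have h5 := hg2 _ p2
    simp only [mul_one] at h5
    rw [av_sub] at h5
    have h6 := (abs_le.1 h5).2
    have h7 := min_le_right η1 (δ / 2)
    linarith
  -- the counting lemma
  have key : ∀ (F : Finset (Fin k)) (u : ZMod N → ℝ), (∀ d, 0 ≤ u d ∧ u d ≤ 1) →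
      |av (fun d => u d * TF k N f F d) - av (fun d => u d * TF k N g F d)| ≤ ε := by
    intro F u hu
    have h5 := hC (ZMod N) (wt (k := k) (fun j => if j ∈ F then ν else fun _ => 1) (fun _ => 1))
      (wt (k := k) (fun j => if j ∈ F then f else fun _ => 1) u)
      (wt (k := k) (fun j => if j ∈ F then g else fun _ => 1) u)
      (Ind_wt _ _) (Ind_wt _ _) (Ind_wt _ _) (LF_sub hLF1 F)
      (by
        intro j x
        rcases j with _ | j
        · exact hu _
        · show 0 ≤ (if j ∈ F then f else fun _ => 1) _ ∧ (if j ∈ F then f else fun _ => 1) _ ≤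
            (if j ∈ F then ν else fun _ => 1) _
          by_cases hj : j ∈ F
          · rw [if_pos hj, if_pos hj]
            exact hf _
          · rw [if_neg hj, if_neg hj]
            exact ⟨zero_le_one, le_rfl⟩)
      (by
        intro j x
        rcases j with _ | j
        · exact hu _
        · show 0 ≤ (if j ∈ F then g else fun _ => 1) _ ∧ (if j ∈ F then g else fun _ => 1) _ ≤ 1
          by_cases hj : j ∈ F
          · rw [if_pos hj]
            exact hg _
          · rw [if_neg hj]
            exact ⟨zero_le_one, le_rfl⟩)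
      (by
        intro j
        rcases j with _ | j
        · intro v _ _
          have e : (fun x : Option (Fin k) → ZMod N =>
              (wt (k := k) (fun j => if j ∈ F then f else fun _ => 1) u none x -
              wt (k := k) (fun j => if j ∈ F then g else fun _ => 1) u none x) *
              ∏ i ∈ univ.erase none, v i x) = fun _ => 0 := by
            funext x
            show (u _ - u _) * _ = 0
            rw [sub_self, zero_mul]
          rw [e, av_const, abs_zero]
          exact hη1.le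
        · by_cases hj : j ∈ F
          · have h6 := cut_some (h := fun a => f a - g a) hkN j h3
            intro v hv hv1
            refine le_trans (le_of_eq ?_) ((h6 v hv hv1).trans (min_le_left _ _))
            congr 2
            funext x
            congr 1
            show (if j ∈ F then f else fun _ => 1) _ - (if j ∈ F then g else fun _ => 1) _ = _
            rw [if_pos hj, if_pos hj]
          · intro v _ _
            have e : (fun x : Option (Fin k) → ZMod N =>
                (wt (k := k) (fun j => if j ∈ F then f else fun _ => 1) u (some j) x -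
                wt (k := k) (fun j => if j ∈ F then g else fun _ => 1) u (some j) x) *
                ∏ i ∈ univ.erase (some j), v i x) = fun _ => 0 := by
              funext x
              show ((if j ∈ F then f else fun _ => 1) _ - (if j ∈ F then g else fun _ => 1) _) * _ = 0
              rw [if_neg hj, if_neg hj, sub_self, zero_mul]
            rw [e, av_const, abs_zero]
            exact hη1.le)
    rw [av_param' hk f F u, av_param' hk g F u] at h5
    exact h5
  -- the good differences for the model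
  have hTg1 : ∀ F d, TF k N g F d ≤ 1 := by
    intro F d
    unfold TF
    calc av (fun a : ZMod N => ∏ j ∈ F, g (a + ((j : ℕ) : ZMod N) * d)) ≤ av (fun _ : ZMod N => (1 : ℝ)) :=
          av_mono fun a => prod_le_one (fun j _ => (hg _).1) (fun j _ => (hg _).2)
      _ = 1 := av_const 1
  have hTg0 : ∀ F d, 0 ≤ TF k N g F d := fun F d => av_nonneg fun a => prod_nonneg fun j _ => (hg _).1
  have hTf0 : ∀ F d, 0 ≤ TF k N f F d := fun F d => av_nonneg fun a => prod_nonneg fun j _ => (hf _).1
  have hTmono : ∀ F d, TF k N g univ d ≤ TF k N g F d := by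
    intro F d
    unfold TF
    apply av_mono
    intro a
    rw [← prod_sdiff (subset_univ F)]
    exact mul_le_of_le_one_left (prod_nonneg fun j _ => (hg _).1)
      (prod_le_one (fun j _ => (hg _).1) (fun j _ => (hg _).2))
  set G0 := (univ : Finset (ZMod N)).filter (fun d => c0 / 2 ≤ TF k N g univ d) with hG0
  have hG0c : c0 / 2 * N ≤ G0.card := by
    have h5 := hc01.trans (hV N g hg h4)
    have h6 : av (fun p : ZMod N × ZMod N => ∏ j ∈ range k, g (p.1 + (j : ZMod N) * p.2)) =
        av (fun d : ZMod N => TF k N g univ d) := by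
      rw [← av_equiv (Equiv.prodComm (ZMod N) (ZMod N)), av_prod]
      congr 1
      funext d
      unfold TF
      congr 1
      funext a
      exact (Fin.prod_univ_eq_prod_range (fun j => g (a + (j : ZMod N) * d)) k).symm
    rw [h6] at h5
    have h7 : av (fun d : ZMod N => TF k N g univ d) ≤
        av (fun d : ZMod N => (if d ∈ G0 then 1 else 0) + c0 / 2) := by
      apply av_mono
      intro d
      by_cases hd : d ∈ G0
      · rw [if_pos hd]
        have := hTg1 univ d
        linarith
      · rw [if_neg hd]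
        rw [hG0, mem_filter, not_and, not_le] at hd
        have := hd (mem_univ _)
        linarith
    rw [av_add, av_const] at h7
    have h8 : av (fun d : ZMod N => if d ∈ G0 then (1 : ℝ) else 0) = G0.card / N := by
      unfold av
      rw [sum_boole, ZMod.card]
      congr 3
      ext d
      simp
    rw [h8] at h7
    have h9 : c0 / 2 ≤ G0.card / N := by linarith
    rwa [le_div_iff₀ hN0] at h9
  -- the bad differences
  have hbad : ∀ F : Finset (Fin k), ((G0.filter (fun d => TF k N f F d < c0 / 4)).card : ℝ) ≤ 4 * ε / c0 * N := by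
    intro F
    obtain ⟨Bd, hBd⟩ : ∃ Bd : Finset (ZMod N), Bd = G0.filter (fun d => TF k N f F d < c0 / 4) := ⟨_, rfl⟩
    rw [← hBd]
    have h5 := key F (fun d => if d ∈ Bd then 1 else 0) (by
      intro d
      split_ifs
      · exact ⟨zero_le_one, le_rfl⟩
      · exact ⟨le_rfl, zero_le_one⟩)
    have h6 : av (fun d => (if d ∈ Bd then (1 : ℝ) else 0) * TF k N f F d) ≤
        av (fun d => c0 / 4 * (if d ∈ Bd then (1 : ℝ) else 0)) := by
      apply av_mono
      intro d
      by_cases hd : d ∈ Bd
      · rw [if_pos hd]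
        rw [hBd, mem_filter] at hd
        linarith [hd.2]
      · rw [if_neg hd, zero_mul, mul_zero]
    have h7 : av (fun d => c0 / 2 * (if d ∈ Bd then (1 : ℝ) else 0)) ≤
        av (fun d => (if d ∈ Bd then (1 : ℝ) else 0) * TF k N g F d) := by
      apply av_mono
      intro d
      by_cases hd : d ∈ Bd
      · rw [if_pos hd]
        rw [hBd, mem_filter, hG0, mem_filter] at hd
        linarith [hd.1.2, hTmono F d]
      · rw [if_neg hd, zero_mul, mul_zero]
    have h8 : av (fun d : ZMod N => if d ∈ Bd then (1 : ℝ) else 0) = Bd.card / N := by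
      unfold av
      rw [sum_boole, ZMod.card]
      congr 3
      ext d
      simp
    rw [av_mul, h8] at h6 h7
    have h9 := (abs_le.1 h5).1
    have h10 : c0 / 4 * (Bd.card / N) ≤ ε := by linarith
    rw [← mul_div_assoc, div_le_iff₀ hN0] at h10
    rw [div_mul_eq_mul_div, le_div_iff₀ hc0]
    linarith
  -- conclusion
  have hsub : G0 ⊆ (univ : Finset (ZMod N)).filter (fun d => ∀ F : Finset (Fin k), c0 / 4 ≤ TF k N f F d) ∪
      (univ : Finset (Finset (Fin k))).biUnion (fun F => G0.filter (fun d => TF k N f F d < c0 / 4)) := by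
    intro d hd
    rw [mem_union, mem_filter, mem_biUnion]
    by_cases h5 : ∀ F : Finset (Fin k), c0 / 4 ≤ TF k N f F d
    · exact Or.inl ⟨mem_univ _, h5⟩
    · push Not at h5
      obtain ⟨F, hF⟩ := h5
      exact Or.inr ⟨F, mem_univ _, mem_filter.2 ⟨hd, hF⟩⟩
  have h5 : (G0.card : ℝ) ≤ (((univ : Finset (ZMod N)).filter (fun d => ∀ F : Finset (Fin k),
      c0 / 4 ≤ TF k N f F d)).card : ℝ) + 2 ^ k * (4 * ε / c0 * N) := by
    have h6 := (card_le_card hsub).trans ((card_union_le _ _).trans (Nat.add_le_add_left card_biUnion_le _))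
    have h7 : (G0.card : ℝ) ≤ (((univ : Finset (ZMod N)).filter (fun d => ∀ F : Finset (Fin k),
      c0 / 4 ≤ TF k N f F d)).card : ℝ) + ∑ F : Finset (Fin k),
        ((G0.filter (fun d => TF k N f F d < c0 / 4)).card : ℝ) := by exact_mod_cast h6
    refine h7.trans ?_
    gcongr
    refine (sum_le_sum fun F _ => hbad F).trans ?_
    rw [sum_const, card_univ, Fintype.card_finset, Fintype.card_fin, nsmul_eq_mul]
    push_cast
    exact le_rfl
  have h6 : (2 : ℝ) ^ k * (4 * ε / c0 * N) = c0 / 4 * N := by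
    rw [hε]
    field_simp
    norm_num
  rw [h6] at h5
  linarith

end Pool.Agent.X26.DP
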